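import Pool.Agent.Helper28.BX.Gen

/-! Reversal of Lie polynomials; elements in right ideals; equality of the last factors. -/

set_option linter.all false
universe u
namespace Pool.Agent.Helper28.BX

open Pool.Agent.Results.MP_5ecbac_al
open ThreeCherries ThreeCherries.Br Skeleton
open Pool.Agent.R325.BH
open scoped TensorProduct

attribute [local instance 100] LieRing.ofAssociativeRing

variable (K : Type u) [Field K]

lemma sepf' (S : Submodule K (F K)) (x : F K) (h : x ∉ S) :
    ∃ f : F K →ₗ[K] K, f x ≠ 0 ∧ ∀ y ∈ S, f y = 0 := by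
  obtain ⟨φ, h1, h2⟩ := Submodule.exists_dual_map_eq_bot_of_notMem h inferInstance
  refine ⟨φ, h1, fun x hx => ?_⟩
  have : φ x ∈ S.map φ := ⟨x, hx, rfl⟩
  rw [h2] at this
  exact this

/-- the antipode -/
noncomputable def Sr : F K →ₗ[K] F K :=
  (Finsupp.linearCombination K (fun m : FreeMonoid (ℕ × ℕ) =>
    ((-1 : K) ^ (FreeMonoid.toList m).length) • wd K (FreeMonoid.toList m).reverse)) ∘ₗ
    (MonoidAlgebra.coeffLinearEquiv K).toLinearMap

lemma Sr_wd (w : Wd) : Sr K (wd K w) = ((-1 : K) ^ w.length) • wd K w.reverse := by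
  unfold Sr
  simp only [LinearMap.coe_comp, LinearEquiv.coe_coe, Function.comp_apply]
  have h : (MonoidAlgebra.coeffLinearEquiv K) (wd K w) =
      Finsupp.single (FreeMonoid.ofList w) (1 : K) := rfl
  rw [h, Finsupp.linearCombination_single, one_smul, FreeMonoid.toList_ofList]

lemma Sr_mul (x y : F K) : Sr K (x * y) = Sr K y * Sr K x := by
  induction x using word_ind K with
  | h0 => simp
  | ha a b h1 h2 => rw [add_mul, map_add, map_add, h1, h2, mul_add]
  | hs c a h => rw [smul_mul_assoc, map_smul, map_smul, h, mul_smul_comm]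
  | hw u =>
    induction y using word_ind K with
    | h0 => simp
    | ha a b h1 h2 => rw [mul_add, map_add, map_add, h1, h2, add_mul]
    | hs c a h => rw [mul_smul_comm, map_smul, map_smul, h, smul_mul_assoc]
    | hw v =>
      rw [← wd_mul, Sr_wd, Sr_wd, Sr_wd, List.reverse_append, wd_mul, smul_mul_smul_comm,
        List.length_append, pow_add, mul_comm]

lemma Sr_lz {x : F K} (h : Lz K x) : Sr K x = -x := by
  induction h with
  | lt a => rw [Sr_wd]; simp
  | br _ _ h1 h2 => rw [map_sub, Sr_mul, Sr_mul, h1, h2]; noncomm_ring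
  | add _ _ h1 h2 => rw [map_add, h1, h2]; abel
  | smul c _ h => rw [map_smul, h, smul_neg]
  | zero => simp

lemma cf_Sr (x : F K) (w : Wd) : cf (Sr K x) w = ((-1 : K) ^ w.length) * cf x w.reverse := by
  induction x using word_ind K with
  | h0 => simp only [map_zero, c_zero, mul_zero]
  | ha a b h1 h2 => rw [map_add, c_add, h1, h2, c_add, mul_add]
  | hs c a h => rw [map_smul, c_smul, h, c_smul]; ring
  | hw v =>
    rw [Sr_wd, c_smul, c_wd, c_wd]
    by_cases h : v = w.reverse
    · subst h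
      simp
    · rw [if_neg h, if_neg, mul_zero, mul_zero]
      rintro rfl
      exact h (List.reverse_reverse v).symm

lemma lz_rev {x : F K} (h : Lz K x) (w : Wd) (hw : cf x w ≠ 0) : cf x w.reverse ≠ 0 := by
  intro h0
  have h1 := cf_Sr K x w
  rw [Sr_lz K h, h0, mul_zero] at h1
  apply hw
  have h2 : cf (-x) w = - cf x w := by
    have := c_smul (-1 : K) x w
    rw [neg_one_smul] at this
    rw [this]; ring
  rw [h2] at h1
  exact neg_eq_zero.1 h1

/-- the property of elements of the algebra generated by primitive elements -/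
def PP (S : Submodule K (F K)) (u : F K) : Prop :=
  ∀ lam : F K →ₗ[K] K, (∀ z ∈ RI K S, lam z = 0) → Dm K lam u = lam 1 • u

lemma pp_prim {S : Submodule K (F K)} {u : F K} (hu : Prim K u) (hm : u ∈ RI K S) : PP K S u := by
  intro lam hlam
  rw [Dm_prim K lam hu, hlam u hm, zero_smul, zero_add]

lemma pp_mem {S : Submodule K (F K)} {n : ℕ} (hn1 : 1 ≤ n) {f : F K} (hf : f ∈ Hn K n)
    (h : PP K S f) : f ∈ RI K S := by
  by_contra hc
  obtain ⟨lam, h1, h2⟩ := Submodule.exists_dual_map_eq_bot_of_notMem hc inferInstance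
  have h3 : ∀ z ∈ RI K S, lam z = 0 := by
    intro z hz
    have : lam z ∈ (RI K S).map lam := Submodule.mem_map_of_mem hz
    rw [h2] at this
    exact (Submodule.mem_bot K).1 this
  apply h1
  have h4 := congrArg (eps K) (h lam h3)
  rw [eps_Dm, map_smul, eps_Hn K n hn1 f hf, smul_zero] at h4
  exact h4

lemma pp_Cw {q : ℕ} {S : Submodule K (F K)} (hS : S ≤ Hn K q) (hp : ∀ s ∈ S, Prim K s) (v : Wd)
    (hv : v.length = q) {f : F K} (hm : f ∈ RI K S) (h : PP K S f) : PP K S (Cw K v f) := by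
  intro lam hlam
  rw [Dm_Cw K lam q _ hv S hS hp hlam f hm, h lam hlam, map_smul]

lemma hn_Cw {q n : ℕ} (v : Wd) (hv : v.length = q) {f : F K} (hf : f ∈ Hn K n) (hqn : q ≤ n) :
    Cw K v f ∈ Hn K (n - q) := by
  intro u hu
  rw [cf_Cw]
  apply hf
  rw [List.length_append, hv]
  omega

lemma RI_eb (q γ : ℕ) (S : Submodule K (F K)) (hS : S ≤ Hn K q) (hE : S ≤ Eb K γ) (w : Wd) :
    ∀ z ∈ RI K S, cf z w ≠ 0 → ∀ a ∈ w.take q, a.2 = γ := by
  intro z hz
  induction hz using Submodule.span_induction with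
  | mem z h =>
    obtain ⟨s, hs, g, rfl⟩ := h
    intro hne a ha
    obtain ⟨w1, w2, h1, h2, -⟩ := FSTaux.cf_mul_ne _ _ _ hne
    have h3 : w1.length = q := by
      by_contra hc
      exact h2 (hS hs _ hc)
    rw [h1, List.take_left' h3] at ha
    by_contra hc
    exact h2 (hE hs w1 ⟨a, ha, hc⟩)
  | zero => intro h; exact absurd (c_zero w) h
  | add x y _ _ h1 h2 =>
    intro hne
    by_cases hx : cf x w = 0
    · by_cases hy : cf y w = 0
      · rw [c_add, hx, hy, add_zero] at hne; exact absurd rfl hne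
      · exact h2 hy
    · exact h1 hx
  | smul c x _ h =>
    intro hne
    apply h
    intro h0
    rw [c_smul, h0, mul_zero] at hne
    exact hne rfl

/-- elements of the right ideal of uniform elements are uniform -/
lemma pp_eb (q γ : ℕ) (hq : 1 ≤ q) (S : Submodule K (F K)) (hS : S ≤ Hn K q)
    (hp : ∀ s ∈ S, Prim K s) (hE : S ≤ Eb K γ) : ∀ (n : ℕ) (f : F K), f ∈ Hn K n → PP K S f →
    f ∈ Eb K γ := by
  intro n
  induction n using Nat.strong_induction_on with
  | _ n ih =>
  intro f hf h w hw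
  by_cases hl : w.length = n
  swap
  · exact hf w hl
  have hn1 : 1 ≤ n := by
    obtain ⟨a, ha, _⟩ := hw
    have := List.length_pos_of_mem ha
    omega
  have hm := pp_mem K hn1 hf h
  by_cases hqn : n < q
  · exact RI_short K q S hS w (by omega) f hm
  have hl2 : (w.take q).length = q := by rw [List.length_take]; omega
  by_contra hc
  have h1 := RI_eb K q γ S hS hE w f hm hc
  have h2 : Cw K (w.take q) f ∈ Eb K γ :=
    ih (n - q) (by omega) _ (hn_Cw K _ hl2 hf (by omega)) (pp_Cw K hS hp _ hl2 hm h)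
  obtain ⟨a, ha, hag⟩ := hw
  rw [← List.take_append_drop q w, List.mem_append] at ha
  rcases ha with ha | ha
  · exact hag (h1 a ha)
  · have := h2 (w.drop q) ⟨a, ha, hag⟩
    rw [cf_Cw, List.take_append_drop] at this
    exact hc this

lemma RI_self (q : ℕ) (S : Submodule K (F K)) (hS : S ≤ Hn K q) (f : F K) (hf : f ∈ Hn K q)
    (hm : f ∈ RI K S) : f ∈ S := by
  have h1 : ∀ z ∈ RI K S, T K q (eps K).toLinearMap z ∈ S := by
    intro z hz
    induction hz using Submodule.span_induction with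
    | mem z h =>
      obtain ⟨s, hs, g, rfl⟩ := h
      rw [T_left K q _ s (hS hs) g]
      exact Submodule.smul_mem _ _ hs
    | zero => rw [map_zero]; exact Submodule.zero_mem _
    | add x y _ _ h1 h2 => rw [map_add]; exact Submodule.add_mem _ h1 h2
    | smul c x _ h => rw [map_smul]; exact Submodule.smul_mem _ _ h
  have h2 := T_left K q (eps K).toLinearMap f hf 1
  rw [mul_one] at h2
  have h3 : (eps K).toLinearMap (1 : F K) = 1 := map_one (eps K)
  rw [h3, one_smul] at h2
  rw [← h2]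
  exact h1 f hm

/-- the words end with exponent `γ` -/
def EndG (γ : ℕ) (f : F K) : Prop := ∀ (w : Wd) (a : ℕ × ℕ), cf f (w ++ [a]) ≠ 0 → a.2 = γ

lemma pp_end (q γ : ℕ) (hq : 1 ≤ q) (S : Submodule K (F K)) (hS : S ≤ Hn K q)
    (hp : ∀ s ∈ S, Prim K s) (h0 : ∀ e ∈ S, EndG K γ e → e = 0) :
    ∀ (n : ℕ) (f : F K), 1 ≤ n → f ∈ Hn K n → PP K S f → EndG K γ f → f = 0 := by
  intro n
  induction n using Nat.strong_induction_on with
  | _ n ih =>
  intro f hn1 hf h he
  have hm := pp_mem K hn1 hf h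
  rcases Nat.lt_trichotomy n q with hqn | hqn | hqn
  · apply ext_cf
    intro w
    rw [c_zero]
    by_cases hl : w.length = n
    · exact RI_short K q S hS w (by omega) f hm
    · exact hf w hl
  · subst hqn
    exact h0 f (RI_self K n S hS f hf hm) he
  · apply ext_cf
    intro w
    rw [c_zero]
    by_cases hl : w.length = n
    · have hl2 : (w.take q).length = q := by rw [List.length_take]; omega
      have h5 := ih (n - q) (by omega) (Cw K (w.take q) f) (by omega)
        (hn_Cw K _ hl2 hf (by omega)) (pp_Cw K hS hp _ hl2 hm h) (by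
          intro w' a hne
          rw [cf_Cw, ← List.append_assoc] at hne
          exact he _ a hne)
      have h6 := cf_Cw K (w.take q) (w.drop q) f
      rw [h5, c_zero, List.take_append_drop] at h6
      exact h6.symm
    · exact hf w hl

/-- all words start with exponent `γ` -/
lemma start_eb (γ n : ℕ) (f : F K) (hf : f ∈ Hn K n) (hn : 1 ≤ n) (hl : Prim K f)
    (h : ∀ (a : ℕ × ℕ) (w : Wd), cf f (a :: w) ≠ 0 → a.2 = γ) : f ∈ Eb K γ := by
  have hW : W K γ ≤ Hn K 1 := by
    refine Submodule.span_le.2 ?_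
    rintro _ ⟨i, rfl⟩ w hw
    rw [c_wd, if_neg]
    rintro rfl
    exact hw rfl
  have hp : ∀ s ∈ W K γ, Prim K s := by
    intro s hs
    refine (lz_span K (s := {z | ∃ i : ℕ, z = wd K [(i, γ)]}) ?_ s hs).prim
    rintro _ ⟨i, rfl⟩
    exact Lz.lt _
  have hE : W K γ ≤ Eb K γ := by
    refine Submodule.span_le.2 ?_
    rintro _ ⟨i, rfl⟩ w ⟨a, ha, hag⟩
    rw [c_wd, if_neg]
    rintro rfl
    rw [List.mem_singleton] at ha
    subst ha
    exact hag rfl
  have hm : f ∈ RI K (W K γ) := by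
    have h1 := mem_words (fun w => ∃ (a : ℕ × ℕ) (w' : Wd), w = a :: w' ∧ a.2 = γ) f (by
      intro w hw
      by_contra hc
      apply hw
      cases w with
      | nil =>
        exfalso
        exact hc (hf [] (by simp; omega))
      | cons a w' => exact ⟨a, w', rfl, h a w' hc⟩)
    refine (Submodule.span_le.2 ?_) h1
    rintro _ ⟨w, ⟨a, w', rfl, ha⟩, rfl⟩
    refine Submodule.subset_span ⟨wd K [a], Submodule.subset_span ⟨a.1, ?_⟩, wd K w', ?_⟩
    · rw [← ha]
    · rw [← wd_mul]; rfl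
  exact pp_eb K 1 γ le_rfl (W K γ) hW hp hE n f hf (pp_prim K hl hm)

lemma end_eb (γ n : ℕ) (f : F K) (hf : f ∈ Hn K n) (hn : 1 ≤ n) (hl : Lz K f)
    (h : EndG K γ f) : f ∈ Eb K γ := by
  refine start_eb K γ n f hf hn hl.prim ?_
  intro a w hw
  have h1 := lz_rev K hl _ hw
  rw [List.reverse_cons] at h1
  exact h _ a h1

/-- no Lie polynomial with all words starting or ending with exponent `γ` in the right ideal -/
lemma sep_one (q γ n : ℕ) (hq : 1 ≤ q) (hqn : q < n) (S : Submodule K (F K)) (hS : S ≤ Hn K q)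
    (hl : ∀ s ∈ S, Lz K s) (h0 : ∀ e ∈ S, e ∈ Eb K γ → e = 0) (x : F K) (hx : x ∈ Hn K n)
    (hxl : Lz K x) (hm : x ∈ RI K S)
    (hw : ∀ w : Wd, cf x w ≠ 0 → (∃ (a : ℕ × ℕ) (w' : Wd), w = a :: w' ∧ a.2 = γ) ∨
      (∃ (w' : Wd) (a : ℕ × ℕ), w = w' ++ [a] ∧ a.2 = γ)) : x = 0 := by
  have hp : ∀ s ∈ S, Prim K s := fun s hs => (hl s hs).prim
  have hS0 : ∀ e ∈ S, EndG K γ e → e = 0 := fun e he h =>
    h0 e he (end_eb K γ q e (hS he) hq (hl e he) h)
  have hPP := pp_prim K hxl.prim hm
  have hst : ∀ (a : ℕ × ℕ) (w : Wd), cf x (a :: w) ≠ 0 → a.2 = γ := by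
    intro a w hne
    by_contra hag
    have hlen : (a :: w).length = n := by
      by_contra hc
      exact hne (hx _ hc)
    have hl2 : ((a :: w).take q).length = q := by rw [List.length_take]; omega
    have h5 := pp_end K q γ hq S hS hp hS0 (n - q) (Cw K ((a :: w).take q) x) (by omega)
      (hn_Cw K _ hl2 hx (by omega)) (pp_Cw K hS hp _ hl2 hm hPP) (by
        intro w' b hne'
        rw [cf_Cw] at hne'
        obtain ⟨q', rfl⟩ : ∃ q', q = q' + 1 := ⟨q - 1, by omega⟩
        rw [List.take_succ_cons] at hne'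
        rcases hw _ hne' with ⟨c, w'', h1, h2⟩ | ⟨w'', c, h1, h2⟩
        · rw [List.cons_append] at h1
          injection h1 with h3 h4
          exact absurd (h3 ▸ h2) hag
        · rw [← List.append_assoc] at h1
          have h3 := List.append_inj_right' h1 rfl
          injection h3 with h4
          rw [h4]; exact h2)
    have h6 := cf_Cw K ((a :: w).take q) ((a :: w).drop q) x
    rw [h5, c_zero, List.take_append_drop] at h6
    exact hne h6.symm
  have hxE := start_eb K γ n x hx (by omega) hxl.prim hst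
  refine pp_end K q γ hq S hS hp hS0 n x (by omega) hx hPP ?_
  intro w a hne
  by_contra hag
  exact hne (hxE _ ⟨a, by simp, hag⟩)

lemma c_sum (D : Finset Wd) (g : Wd → F K) (h : Wd → Wd) :
    ∀ c : K, (∑ w' ∈ D, cf (c • g w') (h w')) = c * ∑ w' ∈ D, cf (g w') (h w') := by
  intro c
  rw [Finset.mul_sum]
  exact Finset.sum_congr rfl fun w _ => c_smul c (g w) (h w)

/-- decomposition of a functional -/
lemma lam_dec (q : ℕ) (lam : F K →ₗ[K] K) (D : Finset Wd) (z : F K)
    (h1 : z ∈ Submodule.span K {z | ∃ w : Wd, w.drop q ∈ D ∧ z = wd K w}) :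
    lam z = ∑ w' ∈ D, cf (Cm K q (lam ∘ₗ LinearMap.mulRight K (wd K w')) z) w' := by
  classical
  induction h1 using Submodule.span_induction with
  | mem z h =>
    obtain ⟨w, hw, rfl⟩ := h
    rw [Finset.sum_eq_single (w.drop q)]
    · rw [Cm_wd, c_smul, c_wd, if_pos rfl, mul_one]
      show lam (wd K w) = lam (wd K (w.take q) * wd K (w.drop q))
      rw [← wd_mul, List.take_append_drop]
    · intro b _ hb
      rw [Cm_wd, c_smul, c_wd, if_neg (Ne.symm hb), mul_zero]
    · intro h; exact absurd hw h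
  | zero => simp [c_zero]
  | add x y _ _ h1 h2 =>
    rw [map_add, h1, h2, ← Finset.sum_add_distrib]
    refine Finset.sum_congr rfl fun w' _ => ?_
    rw [map_add, c_add]
  | smul c x _ h =>
    rw [map_smul, h, smul_eq_mul, Finset.mul_sum]
    refine Finset.sum_congr rfl fun w' _ => ?_
    rw [map_smul, c_smul]

/-- criterion for the right ideal -/
lemma crit (q : ℕ) (S : Submodule K (F K)) (r : F K)
    (h : ∀ nu : F K →ₗ[K] K, (∀ s ∈ S, nu s = 0) → Cm K q nu r = 0) : r ∈ RI K S := by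
  classical
  by_contra hc
  obtain ⟨lam, h1, h2⟩ := sepf' K (RI K S) r hc
  apply h1
  rw [lam_dec K q lam (r.coeff.support.image (fun m => (FreeMonoid.toList m).drop q)) r]
  · apply Finset.sum_eq_zero
    intro w' _
    rw [h _ (fun s hs => ?_), c_zero]
    exact h2 _ (Submodule.subset_span ⟨s, hs, _, rfl⟩)
  · apply mem_words (fun w => w.drop q ∈
      r.coeff.support.image (fun m => (FreeMonoid.toList m).drop q))
    intro w hw
    by_contra hcf
    apply hw
    rw [Finset.mem_image]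
    exact ⟨FreeMonoid.ofList w, Finsupp.mem_support_iff.2 hcf, by rw [FreeMonoid.toList_ofList]⟩

lemma Cm_long (p q : ℕ) (hqp : q ≤ p) (nu : F K →ₗ[K] K) (x : F K) (hx : x ∈ Hn K p) (g : F K) :
    Cm K q nu (x * g) = Cm K q nu x * g := by
  replace hx := mem_Hn_words p x hx
  induction hx using Submodule.span_induction with
  | mem z h =>
    obtain ⟨w, hw, rfl⟩ := h
    induction g using word_ind K with
    | h0 => simp
    | ha a b h1 h2 => rw [mul_add, map_add, mul_add, h1, h2]
    | hs c a h => rw [mul_smul_comm, map_smul, h, mul_smul_comm]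
    | hw v =>
      rw [← wd_mul, Cm_wd, Cm_wd, List.take_append_of_le_length (by omega),
        List.drop_append_of_le_length (by omega), wd_mul, smul_mul_assoc]
  | zero => simp
  | add x y _ _ h1 h2 => rw [add_mul, map_add, h1, h2, map_add, add_mul]
  | smul c x _ h => rw [smul_mul_assoc, map_smul, h, map_smul, smul_mul_assoc]

lemma Cm_kill (q : ℕ) (nu : F K →ₗ[K] K) (S : Submodule K (F K)) (hS : S ≤ Hn K q)
    (h0 : ∀ s ∈ S, nu s = 0) : ∀ z ∈ RI K S, Cm K q nu z = 0 := by
  intro z hz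
  induction hz using Submodule.span_induction with
  | mem z h =>
    obtain ⟨s, hs, g, rfl⟩ := h
    rw [Cm_left K q nu s (hS hs) g, h0 s hs, zero_smul]
  | zero => simp
  | add x y _ _ h1 h2 => rw [map_add, h1, h2, add_zero]
  | smul c x _ h => rw [map_smul, h, smul_zero]

lemma Cm_hn (p q : ℕ) (hqp : q ≤ p) (nu : F K →ₗ[K] K) (x : F K) (hx : x ∈ Hn K p) :
    Cm K q nu x ∈ Hn K (p - q) := by
  replace hx := mem_Hn_words p x hx
  induction hx using Submodule.span_induction with
  | mem z h =>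
    obtain ⟨w, hw, rfl⟩ := h
    rw [Cm_wd]
    apply Submodule.smul_mem
    intro v hv
    rw [c_wd, if_neg]
    rintro rfl
    rw [List.length_drop] at hv
    omega
  | zero => rw [map_zero]; exact Submodule.zero_mem _
  | add x y _ _ h1 h2 => rw [map_add]; exact Submodule.add_mem _ h1 h2
  | smul c x _ h => rw [map_smul]; exact Submodule.smul_mem _ _ h

lemma Cm_lab (q : ℕ) (nu : F K →ₗ[K] K) (z : F K) (w : Wd) (hw : ∃ a ∈ w, a.1 % 2 ≠ 0) :
    cf (Cm K q nu (rel K (fun i => 2 * i) z)) w = 0 := by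
  induction z using word_ind K with
  | h0 => simp [c_zero]
  | ha a b h1 h2 => rw [map_add, map_add, c_add, h1, h2, add_zero]
  | hs c a h => rw [map_smul, map_smul, c_smul, h, mul_zero]
  | hw v =>
    rw [rel_wd, Cm_wd, c_smul, c_wd, if_neg, mul_zero]
    rintro rfl
    obtain ⟨a, ha, h1⟩ := hw
    have h2 := List.mem_of_mem_drop ha
    rw [List.mem_map] at h2
    obtain ⟨b, -, rfl⟩ := h2
    simp only at h1
    omega

/-- a product of an even and an odd element is not a Lie polynomial -/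
lemma no_prod (n q : ℕ) (hn : 1 ≤ n) (hq : 1 ≤ q) (u s : F K) (hu : u ∈ Hn K n) (hs : s ∈ Hn K q)
    (hue : ∀ w : Wd, (∃ a ∈ w, a.1 % 2 ≠ 0) → cf u w = 0)
    (hso : ∀ w : Wd, (∃ a ∈ w, a.1 % 2 ≠ 1) → cf s w = 0) (hs0 : s ≠ 0) (hl : Lz K (u * s)) :
    u = 0 := by
  obtain ⟨w2, hw2⟩ := exists_cf hs0
  have l2 : w2.length = q := by
    by_contra hc; exact hw2 (hs _ hc)
  apply ext_cf
  intro w1
  rw [c_zero]
  by_contra hw1
  have l1 : w1.length = n := by
    by_contra hc; exact hw1 (hu _ hc)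
  have h1 : cf (u * s) (w1 ++ w2) ≠ 0 := by
    rw [MUL K n u s hu _ (by rw [List.length_append]; omega), List.take_left' l1,
      List.drop_left' l1]
    exact mul_ne_zero hw1 hw2
  have h2 := lz_rev K hl _ h1
  rw [List.reverse_append] at h2
  obtain ⟨v1, v2, h3, h4, h5⟩ := FSTaux.cf_mul_ne _ _ _ h2
  have l3 : v1.length = n := by
    by_contra hc; exact h4 (hu _ hc)
  cases w2 using List.reverseRecOn with
  | nil => simp at l2; omega
  | append_singleton w2 a =>
    rw [List.reverse_append] at h3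
    cases v1 with
    | nil => simp at l3; omega
    | cons b v1 =>
      simp only [List.reverse_cons, List.reverse_nil, List.nil_append, List.cons_append] at h3
      injection h3 with h6 h7
      have h8 : b.1 % 2 = 0 := by
        by_contra hc
        exact h4 (hue _ ⟨b, by simp, hc⟩)
      have h9 : a.1 % 2 = 1 := by
        by_contra hc
        exact hw2 (hso _ ⟨a, by simp, hc⟩)
      rw [h6] at h9
      omega

/-- equality of the last factors -/
theorem last (p q : ℕ) (hq : 1 ≤ q) (hqp : q < p) (P Q R S : Submodule K (F K))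
    (hP : P ≤ Hn K p) (hQ : Q ≤ Hn K q) (hR : R ≤ Hn K p) (hS : S ≤ Hn K q)
    (rP : ∀ (r : ℕ → ℕ), ∀ x ∈ P, rel K r x ∈ P) (rQ : ∀ (r : ℕ → ℕ), ∀ x ∈ Q, rel K r x ∈ Q)
    (rR : ∀ (r : ℕ → ℕ), ∀ x ∈ R, rel K r x ∈ R) (rS : ∀ (r : ℕ → ℕ), ∀ x ∈ S, rel K r x ∈ S)
    (kS : Kil K S) (lP : ∀ x ∈ P, Lz K x) (nP : ∃ x ∈ P, x ≠ 0) (nS : ∃ x ∈ S, x ≠ 0)
    (h : br K P Q = br K R S) : Q ≤ S := by
  by_contra hQS
  have hPS : P ≤ RI K S := by
    intro x hx
    by_contra hc
    exact hQS (second K p q hq hqp.le P Q R S hP hQ hR hS rP rQ rS kS h.le x hx hc)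
  -- contraction
  have hphi : ∀ nu : F K →ₗ[K] K, (∀ s ∈ S, nu s = 0) → ∀ z ∈ br K P Q, Cm K q nu z ∈ P := by
    intro nu hnu z hz
    induction hz using Submodule.span_induction with
    | mem z h =>
      obtain ⟨x, hx, y, hy, rfl⟩ := h
      rw [map_sub, Cm_kill K q nu S hS hnu _ (RI_mulr K S y _ (hPS hx)), Cm_left K q nu y (hQ hy) x,
        zero_sub]
      exact Submodule.neg_mem _ (Submodule.smul_mem _ _ hx)
    | zero => rw [map_zero]; exact Submodule.zero_mem _
    | add x y _ _ h1 h2 => rw [map_add]; exact Submodule.add_mem _ h1 h2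
    | smul c x _ h => rw [map_smul]; exact Submodule.smul_mem _ _ h
  have hRS : R ≤ RI K S := by
    intro r hr
    obtain ⟨s, hs, hs0⟩ := nS
    have hr' := rR (fun i => 2 * i) r hr
    have hs' := rS (fun i => 2 * i + 1) s hs
    have hs0' : rel K (fun i => 2 * i + 1) s ≠ 0 := by
      intro h0
      apply hs0
      rw [← rel_odd K s, h0, map_zero]
    suffices hh : rel K (fun i => 2 * i) r ∈ RI K S by
      have := rel_RI K S rS (fun i => i / 2) _ hh
      rwa [rel_even] at this
    apply crit K q S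
    intro nu hnu
    have h1 : rel K (fun i => 2 * i) r * rel K (fun i => 2 * i + 1) s -
        rel K (fun i => 2 * i + 1) s * rel K (fun i => 2 * i) r ∈ br K P Q := by
      rw [h]; exact Submodule.subset_span ⟨_, hr', _, hs', rfl⟩
    have h2 := hphi nu hnu _ h1
    rw [map_sub, Cm_long K p q hqp.le nu _ (hR hr'), Cm_left K q nu _ (hS hs'), hnu _ hs',
      zero_smul, sub_zero] at h2
    exact no_prod K (p - q) q (by omega) hq _ _ (Cm_hn K p q hqp.le nu _ (hR hr')) (hS hs')
      (fun w hw => Cm_lab K q nu r w hw) (fun w hw => cf_odd K s w hw) hs0' (lP _ h2)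
  obtain ⟨y, hy, hyS⟩ := SetLike.not_le_iff_exists.1 hQS
  obtain ⟨nu, h1, h2⟩ := sepf' K S y hyS
  obtain ⟨x, hx, hx0⟩ := nP
  have h3 : x * y - y * x ∈ br K R S := by
    rw [← h]; exact Submodule.subset_span ⟨x, hx, y, hy, rfl⟩
  have h4 : ∀ z ∈ br K R S, Cm K q nu z = 0 := by
    intro z hz
    induction hz using Submodule.span_induction with
    | mem z h =>
      obtain ⟨r, hr, s, hs, rfl⟩ := h
      rw [map_sub, Cm_kill K q nu S hS h2 _ (RI_mulr K S s _ (hRS hr)), Cm_left K q nu s (hS hs) r,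
        h2 s hs, zero_smul, sub_zero]
    | zero => rw [map_zero]
    | add x y _ _ h1 h2 => rw [map_add, h1, h2, add_zero]
    | smul c x _ h => rw [map_smul, h, smul_zero]
  have h5 := h4 _ h3
  rw [map_sub, Cm_kill K q nu S hS h2 _ (RI_mulr K S y _ (hPS hx)), Cm_left K q nu y (hQ hy) x,
    zero_sub, neg_eq_zero] at h5
  rcases smul_eq_zero.1 h5 with h6 | h6
  · exact h1 h6
  · exact hx0 h6

/-- root lemma: cancellation under separation from the right ideal of `Q` only -/
theorem root2 (p q dP dQ dR dS : ℕ) (P Q R S : Submodule K (F K)) (hq : 1 ≤ q) (hqp : q < p)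
    (mP : Mk K P p dP) (mQ : Mk K Q q dQ) (mR : Mk K R p dR) (mS : Mk K S q dS)
    (kQ : Kil K Q) (kS : Kil K S) (lP : ∀ x ∈ P, Lz K x) (lR : ∀ x ∈ R, Lz K x)
    (h2 : ∀ x ∈ P, x ∈ RI K Q → x = 0)
    (h : br K P Q = br K R S) : P = R ∧ Q = S := by
  have e : Q = S := le_antisymm
    (last K p q hq hqp P Q R S mP.hn mQ.hn mR.hn mS.hn mP.hr mQ.hr mR.hr mS.hr kS lP mP.h0 mS.h0 h)
    (last K p q hq hqp R S P Q mR.hn mS.hn mP.hn mQ.hn mR.hr mS.hr mP.hr mQ.hr kQ lR mR.h0 mQ.h0
      h.symm)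
  subst e
  exact ⟨canc K p q hq hqp.le P Q R mP.hn mQ.hn mR.hn mP.hr mQ.hr mR.hr mQ.h0 h2 h, rfl⟩

end Pool.Agent.Helper28.BX
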