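import Pool.Agent.Helper28.BX.Tri
import Pool.Agent.Helper28.BX.Rev
import Pool.Graph.R_seed8.R325.BH.TREE3
import Pool.Graph.R_seed8.R325.BH.SLP
import Pool.Graph.R_seed8.R325.BH.ROOT
import Pool.Graph.R_seed8.R325.BH.KIL
import Pool.Graph.R_seed8.R325.BH.PAIR
import Pool.Graph.R_seed8.R325.BH.NEQ2
import Pool.Graph.R_seed8.R325.BH.NV
import Pool.Graph.R_seed8.R325.BH.NM
import Pool.Graph.R_seed8.R325.BH.MSK

/-! Assembly on the level of trees. -/

set_option linter.all false
universe u
namespace Pool.Agent.Helper28.BX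

open Pool.Agent.Results.MP_5ecbac_al
open ThreeCherries ThreeCherries.Br Skeleton
open Pool.Agent.R325.BH
open scoped TensorProduct

attribute [local instance 100] LieRing.ofAssociativeRing

/-- `Q` is not uniform and `P` splits into two structures with at least two cherries and the same
ratio of letters to cherries as `Q`, such that the number of cherries of the larger one is a
combination of those of the smaller one and of `Q` -/
def Bad (P Q : Br) : Prop := (¬ ∃ β, Unif β Q) ∧ ∃ P1 P2 : Br, (P = node P1 P2 ∨ P = node P2 P1) ∧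
  P1 ≠ leaf ∧ P2 ≠ leaf ∧ 2 ≤ P2.cherries ∧ P2.cherries ≤ P1.cherries ∧
  P1.deg * Q.cherries = Q.deg * P1.cherries ∧ P2.deg * Q.cherries = Q.deg * P2.cherries ∧
  ∃ i j : ℕ, P1.cherries = i * P2.cherries + j * Q.cherries

/-- `P` is a product of two structures with the same number of cherries as `Q` -/
def Tr (P Q : Br) : Prop := ∃ A1 A2 : Br, P = node A1 A2 ∧ A1 ≠ leaf ∧ A2 ≠ leaf ∧
  A1.cherries = Q.cherries ∧ A2.cherries = Q.cherries

/-- condition on a node -/
def NC2 (P Q : Br) : Prop := P.cherries = 1 ∨ Q.cherries = 1 ∨ P.cherries = Q.cherries ∨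
  P.deg * Q.cherries ≠ Q.deg * P.cherries ∨ (∃ β, Unif β P ∧ Unif β Q) ∨
  (Q.cherries < P.cherries ∧ ¬ (Q.cherries ∣ P.cherries ∧ Bad P Q)) ∨
  (P.cherries < Q.cherries ∧ ¬ (P.cherries ∣ Q.cherries ∧ Bad Q P)) ∨ Tr P Q ∨ Tr Q P

/-- all nodes satisfy the condition -/
def Ok2 : Br → Prop
  | leaf => True
  | node P Q => Ok2 P ∧ Ok2 Q ∧ (P = leaf ∨ Q = leaf ∨ NC2 P Q)

/-- all iterated skeletons satisfy the condition -/
def Rg2 (s : Br) : Prop := ∀ j : ℕ, Ok2 (sk^[j] s)

lemma ok2_iter_leaf : ∀ j : ℕ, Ok2 (sk^[j] leaf)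
  | 0 => trivial
  | j + 1 => by
    rw [Function.iterate_succ_apply]
    exact ok2_iter_leaf j

lemma ok2_child : ∀ (j : ℕ) (A B : Br), Ok2 (sk^[j] (node A B)) → Ok2 (sk^[j] A) ∧ Ok2 (sk^[j] B)
  | 0, A, B, h => ⟨h.1, h.2.1⟩
  | j + 1, A, B, h => by
    by_cases hA : A = leaf
    · subst hA
      refine ⟨ok2_iter_leaf _, ?_⟩
      by_cases hB : B = leaf
      · subst hB; exact ok2_iter_leaf _
      · rw [Function.iterate_succ_apply, sk_lnode B hB] at h
        rw [Function.iterate_succ_apply]; exact h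
    · by_cases hB : B = leaf
      · subst hB
        refine ⟨?_, ok2_iter_leaf _⟩
        rw [Function.iterate_succ_apply, sk_noder A hA] at h
        rw [Function.iterate_succ_apply]; exact h
      · rw [Function.iterate_succ_apply, sk_node A B hA hB] at h
        rw [Function.iterate_succ_apply, Function.iterate_succ_apply]
        exact ok2_child j (sk A) (sk B) h

lemma rg2_child {A B : Br} (h : Rg2 (node A B)) : Rg2 A ∧ Rg2 B :=
  ⟨fun j => (ok2_child j A B (h j)).1, fun j => (ok2_child j A B (h j)).2⟩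

lemma rg2_sk {s : Br} (h : Rg2 s) : Rg2 (sk s) := fun j => by
  have := h (j + 1)
  rw [Function.iterate_succ_apply] at this
  exact this

section
variable (K : Type u) [Field K]

lemma M_G (hB : S_BAS K) (A : Br) (hA : A ≠ leaf) :
    ∀ x ∈ M K A, G K (sk A).deg (A.deg - (sk A).deg) x := by
  intro x hx w hw
  obtain ⟨a1, _, _, a4, _⟩ := hB A hA
  by_cases h1 : w.length = (sk A).deg
  · have h2 : wt w ≠ A.deg - (sk A).deg := fun h => hw ⟨h1, h⟩
    have := deg_ge A hA
    exact a4 x hx w (by omega)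
  · exact a1 hx w h1

lemma M_prim (hD : S_DL K) (A : Br) (hA : A ≠ leaf) : ∀ x ∈ M K A, Prim K x :=
  fun x hx => (M_lz K hD A hA x hx).prim

lemma ar1 (a b q d1 d2 e i j : ℕ) (ha : a = i * b + j * q) (hd : d1 = i * d2 + j * e)
    (h : (d1 + d2) * q = (a + b) * e) : d2 * q = b * e ∧ d1 * q = a * e := by
  have h1 : (i + 1) * (d2 * q) = (i + 1) * (b * e) := by
    subst ha hd
    nlinarith [h]
  have h2 := Nat.eq_of_mul_eq_mul_left (Nat.succ_pos i) h1
  refine ⟨h2, ?_⟩
  subst ha hd
  nlinarith [h2]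

lemma br_words (γ : ℕ) (P : Submodule K (F K)) (w : Wd) : ∀ x ∈ br K P (W K γ), cf x w ≠ 0 →
    (∃ (a : ℕ × ℕ) (w' : Wd), w = a :: w' ∧ a.2 = γ) ∨
      (∃ (w' : Wd) (a : ℕ × ℕ), w = w' ++ [a] ∧ a.2 = γ) := by
  intro x hx
  induction hx using Submodule.span_induction with
  | mem z h =>
    obtain ⟨p, hp, y, hy, rfl⟩ := h
    have hy1 : ∀ v : Wd, cf y v ≠ 0 → ∃ a : ℕ × ℕ, v = [a] ∧ a.2 = γ := by
      intro v
      induction hy using Submodule.span_induction with
      | mem z h =>
        obtain ⟨i, rfl⟩ := h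
        intro hne
        rw [c_wd] at hne
        by_cases hv : [(i, γ)] = v
        · exact ⟨(i, γ), hv.symm, rfl⟩
        · rw [if_neg hv] at hne; exact absurd rfl hne
      | zero => intro h; exact absurd (c_zero v) h
      | add x y _ _ h1 h2 =>
        intro hne
        by_cases hx : cf x v = 0
        · by_cases hy : cf y v = 0
          · rw [c_add, hx, hy, add_zero] at hne; exact absurd rfl hne
          · exact h2 hy
        · exact h1 hx
      | smul c x _ h =>
        intro hne
        apply h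
        intro h0
        rw [c_smul, h0, mul_zero] at hne
        exact hne rfl
    intro hne
    rw [c_sub] at hne
    by_cases h1 : cf (p * y) w = 0
    · by_cases h2 : cf (y * p) w = 0
      · rw [h1, h2, sub_zero] at hne; exact absurd rfl hne
      · obtain ⟨w1, w2, e1, e2, e3⟩ := FSTaux.cf_mul_ne _ _ _ h2
        obtain ⟨a, e4, e5⟩ := hy1 w1 e2
        exact Or.inl ⟨a, w2, by rw [e1, e4]; rfl, e5⟩
    · obtain ⟨w1, w2, e1, e2, e3⟩ := FSTaux.cf_mul_ne _ _ _ h1
      obtain ⟨a, e4, e5⟩ := hy1 w2 e3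
      exact Or.inr ⟨w1, a, by rw [e1, e4], e5⟩
  | zero => intro h; exact absurd (c_zero w) h
  | add x y _ _ h1 h2 =>
    intro hne
    by_cases hx : cf x w = 0
    · by_cases hy : cf y w = 0
      · rw [c_add, hx, hy, add_zero] at hne; exact absurd rfl hne
      · exact h2 hy
    · exact h1 hx
  | smul c x _ h =>
    intro hne
    apply h
    intro h0
    rw [c_smul, h0, mul_zero] at hne
    exact hne rfl

/-- the separation lemma -/
lemma sep (hB : S_BAS K) (hD : S_DL K) (hL : S_LD K) (hS : S_SYM K) (hU : S_UNI K) (A B : Br)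
    (hA : A ≠ leaf) (hBl : B ≠ leaf) (hlt : B.cherries < A.cherries)
    (heq : A.deg * B.cherries = B.deg * A.cherries)
    (hun : ¬ ∃ β, Unif β A ∧ Unif β B)
    (hb : ¬ (B.cherries ∣ A.cherries ∧ Bad A B)) :
    ∀ x ∈ M K A, x ∈ RI K (M K B) → x = 0 := by
  have kA := deg_sk_eq A hA
  have kB := deg_sk_eq B hBl
  have hq : 1 ≤ B.cherries := by rw [← kB]; exact ThreeCherries.deg_pos _
  have gB := deg_ge B hBl
  rw [kB] at gB
  have gX := M_G K hB B hBl
  rw [kB] at gX
  have pX := M_prim K hD B hBl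
  have nX : M K B ≤ Hn K B.cherries := fun x hx => (gX x hx).hn
  have nA : M K A ≤ Hn K A.cherries := by rw [← kA]; exact (hB A hA).1
  by_cases hBu : ∃ β, Unif β B
  · obtain ⟨β, hβ⟩ := hBu
    intro x hx hm
    by_contra hx0
    have hxE := pp_eb K B.cherries β hq (M K B) nX pX ((hU β B hBl).2 hβ) A.cherries x (nA hx)
      (pp_prim K (M_prim K hD A hA x hx) hm)
    exact hun ⟨β, (hU β A hA).1 ⟨x, hx, hx0, hxE⟩, hβ⟩
  by_cases hdv : B.cherries ∣ A.cherries
  swap
  · intro x hx hm
    exact c1 K B.cherries A.cherries hq hdv (M K B) nX pX x (nA hx) (M_prim K hD A hA x hx) hm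
  have hnb : ¬ Bad A B := fun h => hb ⟨hdv, h⟩
  have key : ∀ A1 A2 : Br, (A = node A1 A2 ∨ A = node A2 A1) → A1 ≠ leaf → A2 ≠ leaf →
      A2.cherries ≤ A1.cherries → M K A = br K (M K A1) (M K A2) →
      ∀ x ∈ M K A, x ∈ RI K (M K B) → x = 0 := by
    intro A1 A2 hAA h1 h2 h12 hM
    have k1 := deg_sk_eq A1 h1
    have k2 := deg_sk_eq A2 h2
    have g1 := deg_ge A1 h1
    have g2 := deg_ge A2 h2
    rw [k1] at g1
    rw [k2] at g2
    have hb' : 1 ≤ A2.cherries := by rw [← k2]; exact ThreeCherries.deg_pos _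
    have hc : A.cherries = A1.cherries + A2.cherries := by
      rcases hAA with rfl | rfl
      · rw [cherries_node A1 A2 (fun hh => h1 hh.1)]
      · rw [cherries_node A2 A1 (fun hh => h2 hh.1), add_comm]
    have hdg : A.deg = A1.deg + A2.deg := by
      rcases hAA with rfl | rfl
      · rfl
      · simp only [deg]; omega
    have hqa : B.cherries ≤ A1.cherries := by
      obtain ⟨c, hc'⟩ := hdv
      have : 2 ≤ c := by
        by_contra hc2
        have : c = 0 ∨ c = 1 := by omega
        rcases this with rfl | rfl <;> omega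
      have : B.cherries * 2 ≤ B.cherries * c := Nat.mul_le_mul_left _ this
      omega
    by_cases hone : A2.cherries = 1
    · intro x hx hm
      have hW := (hB A2 h2).2.2.2.2 hone
      refine sep_one K B.cherries (A2.deg - 1) A.cherries hq hlt (M K B) nX (M_lz K hD B hBl) ?_ x
        (nA hx) (M_lz K hD A hA x hx) hm ?_
      · intro e he heE
        by_contra he0
        exact hBu ⟨_, (hU _ B hBl).1 ⟨e, he, he0, heE⟩⟩
      · intro w
        rw [hM, hW] at hx
        exact br_words K _ _ w x hx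
    rw [hM]
    have G1 := M_G K hB A1 h1
    have G2 := M_G K hB A2 h2
    rw [k1] at G1
    rw [k2] at G2
    refine sep_br K A1.cherries A2.cherries B.cherries (A1.deg - A1.cherries)
      (A2.deg - A2.cherries) (B.deg - B.cherries) hb' hq h12 hqa (M K A1) (M K A2) (M K B) G1 G2 gX
      (M_prim K hD A1 h1) (M_prim K hD A2 h2) pX ?_
    rintro ⟨i, j, e1, e2⟩
    apply hnb
    have h3 : (A1.deg - A1.cherries + (A2.deg - A2.cherries)) * B.cherries =
        (A1.cherries + A2.cherries) * (B.deg - B.cherries) := by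
      rw [hc, hdg] at heq
      zify [g1, g2, gB] at heq ⊢
      linear_combination heq
    obtain ⟨h4, h5⟩ := ar1 _ _ _ _ _ _ i j e1 e2 h3
    refine ⟨hBu, A1, A2, hAA, h1, h2, by omega, h12, ?_, ?_, i, j, e1⟩
    · zify [g1, gB] at h5 ⊢
      linear_combination h5
    · zify [g2, gB] at h4 ⊢
      linear_combination h4
  rcases A with _ | ⟨A1, A2⟩
  · exact absurd rfl hA
  by_cases h1 : A1 = leaf
  · subst h1
    by_cases h2 : A2 = leaf
    · subst h2
      exfalso
      have : (node leaf leaf).cherries = 1 := rfl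
      omega
    · rw [M_pl K A2 h2]
      have k2 := deg_sk_eq A2 h2
      have e2 : (node leaf A2).cherries = A2.cherries := by
        rw [cherries_node leaf A2 (fun hh => h2 hh.2)]
        show 0 + _ = _
        rw [zero_add]
      exact sep_dl K hL A2.cherries B.cherries (B.deg - B.cherries) hq (by omega) (M K A2) (M K B)
        (by rw [← k2]; exact (hB A2 h2).1) gX
  · by_cases h2 : A2 = leaf
    · subst h2
      rw [M_pr K A1 h1]
      have k1 := deg_sk_eq A1 h1
      have e1 : (node A1 leaf).cherries = A1.cherries := by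
        rw [cherries_node A1 leaf (fun hh => h1 hh.1)]
        rfl
      exact sep_dl K hL A1.cherries B.cherries (B.deg - B.cherries) hq (by omega) (M K A1) (M K B)
        (by rw [← k1]; exact (hB A1 h1).1) gX
    · rcases Nat.le_total A2.cherries A1.cherries with h12 | h12
      · exact key A1 A2 (Or.inl rfl) h1 h2 h12 (M_br K A1 A2 h1 h2)
      · refine key A2 A1 (Or.inr rfl) h2 h1 h12 ?_
        rw [hS A1 A2]
        exact M_br K A2 A1 h2 h1

/-- the case of equal ratios -/
lemma core_gen (hB : S_BAS K) (hD : S_DL K) (hL : S_LD K) (hS : S_SYM K) (hU : S_UNI K)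
    (hKi : S_KIL K)
    (A B C D : Br) (hA : A ≠ leaf) (hBl : B ≠ leaf) (hC : C ≠ leaf) (hDl : D ≠ leaf)
    (hlt : B.cherries < A.cherries) (heq : A.deg * B.cherries = B.deg * A.cherries)
    (hun : ¬ ∃ β, Unif β A ∧ Unif β B)
    (hb : ¬ (B.cherries ∣ A.cherries ∧ Bad A B))
    (hPA : PT K A) (hPB : PT K B) (hs1 : CEq (sk A) (sk C)) (hs2 : CEq (sk B) (sk D))
    (hM : br K (M K A) (M K B) = br K (M K C) (M K D)) : CEq (node A B) (node C D) := by
  have e1 := hs1.deg_eq
  have e2 := hs2.deg_eq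
  have kA := deg_sk_eq A hA
  have kB := deg_sk_eq B hBl
  have mC := mk K hB C hC
  have mD := mk K hB D hDl
  rw [← e1] at mC
  rw [← e2] at mD
  obtain ⟨h1, h2⟩ := root2 K (sk A).deg (sk B).deg _ _ _ _ (M K A) (M K B) (M K C) (M K D)
    (ThreeCherries.deg_pos _) (by omega) (mk K hB A hA) (mk K hB B hBl) mC mD
    (hKi B hBl) (hKi D hDl) (M_lz K hD A hA) (M_lz K hD C hC)
    (sep K hB hD hL hS hU A B hA hBl hlt heq hun hb) hM
  exact CEq.congr (hPA C hC (deg_of_eq K hB A C hA hC hs1 h1) hs1 h1)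
    (hPB D hDl (deg_of_eq K hB B D hBl hDl hs2 h2) hs2 h2)

/-- the case of three equal numbers of cherries -/
lemma core_tri (hB : S_BAS K) (hD : S_DL K) (hL : S_LD K) (hS : S_SYM K) (hKi : S_KIL K)
    (A1 A2 B C D : Br) (hA1 : A1 ≠ leaf) (hA2 : A2 ≠ leaf) (hBl : B ≠ leaf) (hC : C ≠ leaf)
    (hDl : D ≠ leaf) (c1 : A1.cherries = B.cherries) (c2 : A2.cherries = B.cherries)
    (hPA : PT K (node A1 A2)) (hPB : PT K B) (hs1 : CEq (sk (node A1 A2)) (sk C))
    (hs2 : CEq (sk B) (sk D))
    (hM : br K (M K (node A1 A2)) (M K B) = br K (M K C) (M K D)) :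
    CEq (node (node A1 A2) B) (node C D) := by
  suffices hh : M K (node A1 A2) = M K C ∧ M K B = M K D by
    exact CEq.congr (hPA C hC (deg_of_eq K hB _ C nofun hC hs1 hh.1) hs1 hh.1)
      (hPB D hDl (deg_of_eq K hB B D hBl hDl hs2 hh.2) hs2 hh.2)
  have e2 := hs2.deg_eq
  have k1 := deg_sk_eq A1 hA1
  have k2 := deg_sk_eq A2 hA2
  have kB := deg_sk_eq B hBl
  have pB := ThreeCherries.deg_pos (sk B)
  have e1 : (sk C).deg = (sk B).deg + (sk B).deg := by
    rw [← hs1.deg_eq, sk_node A1 A2 hA1 hA2]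
    show (sk A1).deg + (sk A2).deg = _
    omega
  have pend : ∀ C' : Br, C' ≠ leaf → (sk C').deg = (sk C).deg →
      M K C = (M K C').map (R325.BH.dl K) → M K (node A1 A2) = M K C ∧ M K B = M K D := by
    intro C' hC' hdC hMC
    have mA := mk K hB (node A1 A2) nofun
    have mB := mk K hB B hBl
    have GB := M_G K hB B hBl
    have GD := M_G K hB D hDl
    rw [← e2] at GD
    rw [hs1.deg_eq] at mA
    have mD := mk K hB D hDl
    rw [← e2] at mD
    obtain ⟨h1, h2⟩ := root K (sk C).deg (sk B).deg _ _ _ _ (M K C) (M K D) (M K (node A1 A2))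
      (M K B) pB (by omega) (mk K hB C hC) mD mA mB
      (hKi D hDl) (hKi B hBl) (by
        intro hle
        obtain ⟨_, ⟨x, hx, hx0⟩, _⟩ := hB C hC
        apply hx0
        refine sep_dl K hL (sk C).deg (sk B).deg (B.deg - (sk B).deg) pB (by omega) (M K C') (M K B)
          ?_ GB x (by rw [← hMC]; exact hx) (hle hx)
        rw [← hdC]
        exact (hB C' hC').1)
      (by
        rw [hMC]
        refine sep_dl K hL (sk C).deg (sk B).deg (D.deg - (sk B).deg) pB (by omega) (M K C') (M K D)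
          ?_ GD
        rw [← hdC]
        exact (hB C' hC').1) hM.symm
    exact ⟨h1.symm, h2.symm⟩
  rcases C with _ | ⟨C1, C2⟩
  · exact absurd rfl hC
  by_cases hC1 : C1 = leaf
  · subst hC1
    by_cases hC2 : C2 = leaf
    · subst hC2
      exfalso
      have : (sk (node leaf leaf)).deg = 1 := rfl
      omega
    · exact pend C2 hC2 (by rw [sk_lnode C2 hC2]) (M_pl K C2 hC2)
  by_cases hC2 : C2 = leaf
  · subst hC2
    exact pend C1 hC1 (by rw [sk_noder C1 hC1]) (M_pr K C1 hC1)
  have hcd : (sk C1).deg = (sk B).deg ∧ (sk C2).deg = (sk B).deg := by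
    rw [sk_node A1 A2 hA1 hA2, sk_node C1 C2 hC1 hC2] at hs1
    rcases inv_node hs1 with ⟨h1, h2⟩ | ⟨h1, h2⟩
    · have := h1.deg_eq
      have := h2.deg_eq
      exact ⟨by omega, by omega⟩
    · have := h1.deg_eq
      have := h2.deg_eq
      exact ⟨by omega, by omega⟩
  obtain ⟨hc1, hc2⟩ := hcd
  rw [M_br K A1 A2 hA1 hA2, M_br K C1 C2 hC1 hC2] at *
  obtain ⟨a1, a2, a3, _⟩ := hB A1 hA1
  obtain ⟨b1, b2, b3, _⟩ := hB A2 hA2
  obtain ⟨q1, q2, q3, _⟩ := hB B hBl
  obtain ⟨r1, r2, r3, _⟩ := hB C1 hC1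
  obtain ⟨s1, s2, s3, _⟩ := hB C2 hC2
  obtain ⟨t1, t2, t3, _⟩ := hB D hDl
  rw [show (sk A1).deg = (sk B).deg by omega] at a1
  rw [show (sk A2).deg = (sk B).deg by omega] at b1
  rw [hc1] at r1
  rw [hc2] at s1
  rw [← e2] at t1
  have E := ee K (sk B).deg pB _ _ _ _ _ _ a1 b1 q1 r1 s1 t1 a3 b3 q3 r3 s3 t3 (hKi C1 hC1)
    (hKi C2 hC2) (hKi D hDl) hM.le
  have E' := ee K (sk B).deg pB _ _ _ _ _ _ r1 s1 t1 a1 b1 q1 r3 s3 t3 a3 b3 q3 (hKi A1 hA1)
    (hKi A2 hA2) (hKi B hBl) hM.ge
  obtain ⟨h1, h2⟩ := tri K E E' a2 b2 q2 r2 s2 t2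
  refine ⟨?_, h2⟩
  rcases h1 with ⟨h3, h4⟩ | ⟨h3, h4⟩
  · rw [h3, h4]
  · rw [h3, h4]; exact PairAux.brc K _ _

lemma PT_unif (hB : S_BAS K) (hU : S_UNI K) (β : ℕ) (s : Br) (hs : s ≠ leaf) (h : Unif β s) :
    PT K s := by
  intro t ht hd hsk hM
  obtain ⟨_, ⟨x, hx, hx0⟩, _⟩ := hB s hs
  have h1 : Unif β t := (hU β t ht).1 ⟨x, hM ▸ hx, hx0, (hU β s hs).2 h hx⟩
  exact unif_ceq β s t h h1 hsk

end

theorem main4 (H : Hyp.{u}) : ∀ (n : ℕ) (s : Br), s.deg ≤ n → Rg2 s →
    (s ≠ leaf → ∀ (L : Type u) [Field L], PT L s) ∧ GN.{u} s := by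
  intro n
  induction n with
  | zero => intro s hn _; have := ThreeCherries.deg_pos s; omega
  | succ n ih =>
    intro s hn hR
    have hPT : s ≠ leaf → ∀ (L : Type u) [Field L], PT L s := by
      intro hs L _
      obtain ⟨hPa, hKi, hRo, hSl, hNM, hMS⟩ := H L
      have hM := MUL L
      have hD := DL L
      have hL := LD L hD
      have hB := BAS L hM hD hL
      have hS := SYM L
      have hU := UNI L hM hD hB hS hL (KEY L hM)
      have hC := CAN L hM hD
      have hF := FST L hM hD hB hL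
      have hRt : S_RT L := RT L hM
      have hI := IM L hM hD hL
      by_cases hdb : s.deg = 2 * s.cherries
      · exact PT_dbl L s hs hdb
      cases s with
      | leaf => exact absurd rfl hs
      | node A B =>
        obtain ⟨rA, rB⟩ := rg2_child hR
        have hdA := ThreeCherries.deg_pos A
        have hdB := ThreeCherries.deg_pos B
        have hn' : A.deg + B.deg ≤ n + 1 := hn
        obtain ⟨pA, gA⟩ := ih A (by omega) rA
        obtain ⟨pB, gB⟩ := ih B (by omega) rB
        by_cases hAl : A = leaf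
        · subst hAl
          by_cases hBl : B = leaf
          · subst hBl; exact absurd rfl hdb
          · exact PT_comm L hS B leaf (PT_pend L hB hL hI B hBl (pB hBl L))
        · by_cases hBl : B = leaf
          · subst hBl; exact PT_pend L hB hL hI A hAl (pA hAl L)
          · have hA2 := sk_lt hAl
            have hB2 := sk_lt hBl
            obtain ⟨_, gA'⟩ := ih (sk A) (by omega) (rg2_sk rA)
            obtain ⟨_, gB'⟩ := ih (sk B) (by omega) (rg2_sk rB)
            have hnc : NC2 A B := by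
              rcases (hR 0).2.2 with h | h | h
              · exact absurd h hAl
              · exact absurd h hBl
              · exact h
            have cat : ∀ P Q : Br, P ≠ leaf → PT L P → Q.cherries = 1 → PT L (node P Q) := by
              intro P Q hP hPT hQ
              refine node_case L hB hS hI P Q hP (cher_ne hQ) ?_
              intro C D hCl hDl hd h1 h2 hM
              rw [sk_of_one hQ] at h2
              exact core L hB hU hC hF hRt P Q C D hP hCl hQ (one_of_sk hDl (inv_leaf h2)) hPT h1 hd hM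
            have slo : ∀ P Q : Br, P ≠ leaf → Q ≠ leaf → PT L P → PT L Q →
                Q.cherries < P.cherries → P.deg * Q.cherries ≠ Q.deg * P.cherries →
                PT L (node P Q) := by
              intro P Q hP hQ p1 p2 hlt hne
              exact node_case L hB hS hI P Q hP hQ fun C D hCl hDl hd h1 h2 hM =>
                core_slope L hB hRo hSl P Q C D hP hQ hCl hDl hlt hne p1 p2 h1 h2 hd hM
            have gen : ∀ P Q : Br, P ≠ leaf → Q ≠ leaf → PT L P → PT L Q →
                Q.cherries < P.cherries → P.deg * Q.cherries = Q.deg * P.cherries →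
                ¬ (Q.cherries ∣ P.cherries ∧ Bad P Q) → PT L (node P Q) := by
              intro P Q hP hQ p1 p2 hlt heq hb
              by_cases hun : ∃ β, Unif β P ∧ Unif β Q
              · obtain ⟨β, h, h'⟩ := hun
                exact PT_unif L hB hU β (node P Q) nofun (unif_node.2 (Or.inr ⟨hP, hQ, h, h'⟩))
              exact node_case L hB hS hI P Q hP hQ fun C D hCl hDl hd h1 h2 hM =>
                core_gen L hB hD hL hS hU hKi P Q C D hP hQ hCl hDl hlt heq hun hb p1 p2 h1 h2 hM
            have trp : ∀ P Q : Br, P ≠ leaf → Q ≠ leaf → PT L P → PT L Q → Tr P Q →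
                PT L (node P Q) := by
              rintro P Q hP hQ p1 p2 ⟨A1, A2, rfl, h1, h2, c1, c2⟩
              exact node_case L hB hS hI (node A1 A2) Q hP hQ fun C D hCl hDl hd h3 h4 hM =>
                core_tri L hB hD hL hS hKi A1 A2 Q C D h1 h2 hQ hCl hDl c1 c2 p1 p2 h3 h4 hM
            by_cases hr : A.deg * B.cherries = B.deg * A.cherries
            swap
            · rcases Nat.lt_trichotomy B.cherries A.cherries with hlt | heq | hgt
              · exact slo A B hAl hBl (pA hAl L) (pB hBl L) hlt hr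
              · exact node_case L hB hS hI A B hAl hBl fun C D hCl hDl hd h1 h2 hM =>
                  core_pair L hB hPa hKi hMS A B C D hAl hBl hCl hDl heq.symm (pA hAl L) (pB hBl L)
                    gA' gB' h1 h2 hM
              · exact PT_comm L hS B A (slo B A hBl hAl (pB hBl L) (pA hAl L) hgt (Ne.symm hr))
            rcases hnc with h | h | h | h | ⟨β, h, h'⟩ | ⟨h, h'⟩ | ⟨h, h'⟩ | h | h
            · exact PT_comm L hS B A (cat B A hBl (pB hBl L) h)
            · exact cat A B hAl (pA hAl L) h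
            · exact node_case L hB hS hI A B hAl hBl fun C D hCl hDl hd h1 h2 hM =>
                core_pair L hB hPa hKi hMS A B C D hAl hBl hCl hDl h (pA hAl L) (pB hBl L) gA' gB'
                  h1 h2 hM
            · exact absurd hr h
            · exact PT_unif L hB hU β (node A B) nofun (unif_node.2 (Or.inr ⟨hAl, hBl, h, h'⟩))
            · exact gen A B hAl hBl (pA hAl L) (pB hBl L) h hr h'
            · exact PT_comm L hS B A (gen B A hBl hAl (pB hBl L) (pA hAl L) h hr.symm h')
            · exact trp A B hAl hBl (pA hAl L) (pB hBl L) h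
            · exact PT_comm L hS B A (trp B A hBl hAl (pB hBl L) (pA hAl L) h)
    refine ⟨hPT, ?_⟩
    intro L _ t hd hN
    by_cases hs : s = leaf
    · subst hs
      rw [deg_one (s := t) (by rw [← hd]; rfl)]
      exact CEq.refl _
    · obtain ⟨hPa, hKi, hRo, hSl, hNM, hMS⟩ := H L
      have h2 := deg_two_of hs
      have ht : t ≠ leaf := by
        rintro rfl
        simp only [deg] at hd
        omega
      obtain ⟨e1, e2⟩ := hNM s t hs ht hd hN
      have hlt := sk_lt hs
      obtain ⟨_, g⟩ := ih (sk s) (by omega) (rg2_sk hR)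
      exact hPT hs L t ht hd (g _ (sk t) e1 (hMS s t hs ht e2)) e2

lemma hyp : Hyp.{u} := by
  intro L _
  have hM := MUL L
  have hD := DL L
  have hL := LD L hD
  have hB := BAS L hM hD hL
  exact ⟨PAIR L hM, KIL L hM hD, ROOT L hM, SLP L hM hD hB hL, NM L hM hD hB (NV L hM),
    MSK L hM hD hB⟩

end Pool.Agent.Helper28.BX
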