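import Pool.Agent.Helper28.BX.Two

/-! The general root lemma. -/

set_option linter.all false
universe u
namespace Pool.Agent.Helper28.BX

open Pool.Agent.Results.MP_5ecbac_al
open ThreeCherries ThreeCherries.Br Skeleton
open Pool.Agent.R325.BH
open scoped TensorProduct

attribute [local instance 100] LieRing.ofAssociativeRing

variable (K : Type u) [Field K]

lemma T_RI (p q : ℕ) (hqp : q ≤ p) (mu : F K →ₗ[K] K) (S : Submodule K (F K)) (hS : S ≤ Hn K q) :
    ∀ z ∈ RI K S, T K p mu z ∈ RI K S := by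
  intro z hz
  induction hz using Submodule.span_induction with
  | mem z h =>
    obtain ⟨s, hs, g, rfl⟩ := h
    rw [T_right K p q hqp mu s (hS hs) g]
    exact Submodule.subset_span ⟨s, hs, _, rfl⟩
  | zero => rw [map_zero]; exact Submodule.zero_mem _
  | add x y _ _ h1 h2 => rw [map_add]; exact Submodule.add_mem _ h1 h2
  | smul c x _ h => rw [map_smul]; exact Submodule.smul_mem _ _ h

/-- tensors representing sums of commutators -/
lemma tens (p q : ℕ) (hqp : q ≤ p) (P Q : Submodule K (F K)) (hP : P ≤ Hn K p) (hQ : Q ≤ Hn K q) :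
    ∀ u ∈ br K P Q, ∃ X : F K ⊗[K] F K,
      u = LinearMap.mul' K (F K) X - LinearMap.mul' K (F K) (TensorProduct.comm K (F K) (F K) X) ∧
      (∀ mu : F K →ₗ[K] K, TensorProduct.rid K (F K) (LinearMap.lTensor (F K) mu X) ∈ P) ∧
      (∀ mu : F K →ₗ[K] K, T K p mu u - TensorProduct.rid K (F K) (LinearMap.lTensor (F K) mu X) ∈
        RI K Q) := by
  intro u hu
  induction hu using Submodule.span_induction with
  | mem z h =>
    obtain ⟨x, hx, y, hy, rfl⟩ := h
    refine ⟨x ⊗ₜ y, by simp, fun mu => ?_, fun mu => ?_⟩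
    · rw [LinearMap.lTensor_tmul, TensorProduct.rid_tmul]
      exact Submodule.smul_mem _ _ hx
    · rw [LinearMap.lTensor_tmul, TensorProduct.rid_tmul, map_sub, T_left K p mu x (hP hx) y,
        T_right K p q hqp mu y (hQ hy) x]
      have e : mu y • x - y * T K (p - q) mu x - mu y • x = -(y * T K (p - q) mu x) := by abel
      rw [e]
      exact Submodule.neg_mem _ (Submodule.subset_span ⟨y, hy, _, rfl⟩)
  | zero => exact ⟨0, by simp, fun mu => by simp, fun mu => by simp⟩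
  | add x y _ _ h1 h2 =>
    obtain ⟨X, hX1, hX2, hX3⟩ := h1
    obtain ⟨Y, hY1, hY2, hY3⟩ := h2
    refine ⟨X + Y, ?_, fun mu => ?_, fun mu => ?_⟩
    · rw [map_add, map_add, map_add, hX1, hY1]; abel
    · rw [map_add, map_add]; exact Submodule.add_mem _ (hX2 mu) (hY2 mu)
    · have := Submodule.add_mem _ (hX3 mu) (hY3 mu)
      rw [map_add, map_add, map_add]
      convert this using 1
      abel
  | smul c x _ h =>
    obtain ⟨X, hX1, hX2, hX3⟩ := h
    refine ⟨c • X, ?_, fun mu => ?_, fun mu => ?_⟩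
    · rw [map_smul, map_smul, map_smul, ← smul_sub, ← hX1]
    · rw [map_smul, map_smul]; exact Submodule.smul_mem _ _ (hX2 mu)
    · have := Submodule.smul_mem _ c (hX3 mu)
      rw [map_smul, map_smul, map_smul, ← smul_sub]
      exact this

lemma vanish (p q : ℕ) (hqp : q ≤ p) (P Q Y : Submodule K (F K)) (hP : P ≤ Hn K p)
    (hQ : Q ≤ Hn K q) (hY : RI K Q ≤ Y) (h0 : ∀ x ∈ P, x ∈ Y → x = 0) (u : F K)
    (hu : u ∈ br K P Q) (hT : ∀ mu : F K →ₗ[K] K, T K p mu u ∈ Y) : u = 0 := by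
  obtain ⟨X, hX1, hX2, hX3⟩ := tens K p q hqp P Q hP hQ u hu
  have hX : X = 0 := by
    apply sep_right
    intro mu
    apply h0 _ (hX2 mu)
    have h1 := Submodule.sub_mem _ (hT mu) (hY (hX3 mu))
    rwa [sub_sub_cancel] at h1
  rw [hX1, hX]
  simp

/-- the first factor modulo the right ideal -/
lemma first' (p q : ℕ) (hq : 1 ≤ q) (hqp : q ≤ p) (P Q R S : Submodule K (F K))
    (hP : P ≤ Hn K p) (hQ : Q ≤ Hn K q) (hR : R ≤ Hn K p) (hS : S ≤ Hn K q)
    (rP : ∀ (r : ℕ → ℕ), ∀ x ∈ P, rel K r x ∈ P) (rQ : ∀ (r : ℕ → ℕ), ∀ x ∈ Q, rel K r x ∈ Q)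
    (rR : ∀ (r : ℕ → ℕ), ∀ x ∈ R, rel K r x ∈ R) (rS : ∀ (r : ℕ → ℕ), ∀ x ∈ S, rel K r x ∈ S)
    (h0 : ∃ y ∈ Q, y ≠ 0) (h : br K P Q ≤ br K R S) : P ≤ R ⊔ RI K S := by
  intro x hx
  obtain ⟨y, hy, hy0⟩ := h0
  have hx' := rP (fun i => 2 * i) x hx
  have hy' := rQ (fun i => 2 * i + 1) y hy
  have hc2 : rel K (fun i => 2 * i + 1) y ∉ Ev K := by
    intro h1
    apply hy0
    have h2 : rel K (fun i => 2 * i + 1) y = 0 := by
      apply ext_cf
      intro w
      rw [c_zero]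
      by_cases hw : ∀ a ∈ w, a.1 % 2 = 1
      · exact h1 w hw
      · push Not at hw
        exact cf_odd K y w hw
    rw [← rel_odd K y, h2, map_zero]
  obtain ⟨mu, h1, h2⟩ := Submodule.exists_dual_map_eq_bot_of_notMem hc2 inferInstance
  have h3 : ∀ z ∈ Ev K, mu z = 0 := by
    intro z hz
    have : mu z ∈ (Ev K).map mu := Submodule.mem_map_of_mem hz
    rw [h2] at this
    exact (Submodule.mem_bot K).1 this
  have h4 := T_test K p q hq hqp mu h3 x y (hP hx) (hQ hy) (hP hx') (hQ hy')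
  have h5 := T_br K p q hqp mu R S hR hS (R ⊔ RI K S) le_sup_right
    (fun r hr s hs => Submodule.mem_sup_left (Submodule.smul_mem _ _ hr))
    _ (h (Submodule.subset_span ⟨_, hx', _, hy', rfl⟩))
  rw [h4] at h5
  have h6 := Submodule.smul_mem _ (mu (rel K (fun i => 2 * i + 1) y))⁻¹ h5
  rw [smul_smul, inv_mul_cancel₀ h1, one_smul] at h6
  obtain ⟨r, hr, g, hg, hrg⟩ := Submodule.mem_sup.1 h6
  have h7 := congrArg (rel K (fun i => i / 2)) hrg
  rw [rel_even, map_add] at h7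
  rw [← h7]
  exact Submodule.add_mem _ (Submodule.mem_sup_left (rR _ r hr))
    (Submodule.mem_sup_right (rel_RI K S rS _ g hg))

/-- cancellation: no element of `P` in the right ideal generated by `Q` -/
lemma canc (p q : ℕ) (hq : 1 ≤ q) (hqp : q ≤ p) (P Q R : Submodule K (F K))
    (hP : P ≤ Hn K p) (hQ : Q ≤ Hn K q) (hR : R ≤ Hn K p)
    (rP : ∀ (r : ℕ → ℕ), ∀ x ∈ P, rel K r x ∈ P) (rQ : ∀ (r : ℕ → ℕ), ∀ x ∈ Q, rel K r x ∈ Q)
    (rR : ∀ (r : ℕ → ℕ), ∀ x ∈ R, rel K r x ∈ R) (h0 : ∃ y ∈ Q, y ≠ 0)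
    (hd : ∀ x ∈ P, x ∈ RI K Q → x = 0) (h : br K P Q = br K R Q) : P = R := by
  have key : ∀ x ∈ P, ∀ r ∈ R, r - x ∈ RI K Q → r = x := by
    intro x hx r hr hg
    obtain ⟨y, hy, hy0⟩ := h0
    have hx' := rP (fun i => 2 * i) x hx
    have hr' := rR (fun i => 2 * i) r hr
    have hy' := rQ (fun i => 2 * i + 1) y hy
    have hg' := rel_RI K Q rQ (fun i => 2 * i) _ hg
    have hgn : r - x ∈ Hn K p := Submodule.sub_mem _ (hR hr) (hP hx)
    have hgn' : rel K (fun i => 2 * i) (r - x) ∈ Hn K p := by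
      rw [map_sub]; exact Submodule.sub_mem _ (hR hr') (hP hx')
    have hu : rel K (fun i => 2 * i) (r - x) * rel K (fun i => 2 * i + 1) y -
        rel K (fun i => 2 * i + 1) y * rel K (fun i => 2 * i) (r - x) ∈ br K P Q := by
      have e1 : rel K (fun i => 2 * i) r * rel K (fun i => 2 * i + 1) y -
        rel K (fun i => 2 * i + 1) y * rel K (fun i => 2 * i) r ∈ br K P Q := by
        rw [h]; exact Submodule.subset_span ⟨_, hr', _, hy', rfl⟩
      have e2 : rel K (fun i => 2 * i) x * rel K (fun i => 2 * i + 1) y -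
        rel K (fun i => 2 * i + 1) y * rel K (fun i => 2 * i) x ∈ br K P Q :=
        Submodule.subset_span ⟨_, hx', _, hy', rfl⟩
      have := Submodule.sub_mem _ e1 e2
      rw [map_sub]
      convert this using 1
      noncomm_ring
    have huR : rel K (fun i => 2 * i) (r - x) * rel K (fun i => 2 * i + 1) y -
        rel K (fun i => 2 * i + 1) y * rel K (fun i => 2 * i) (r - x) ∈ RI K Q :=
      Submodule.sub_mem _ (RI_mulr K Q _ _ hg') (Submodule.subset_span ⟨_, hy', _, rfl⟩)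
    have hu0 := vanish K p q hqp P Q (RI K Q) hP hQ le_rfl hd _ hu
      (fun mu => T_RI K p q hqp mu Q hQ _ huR)
    have hc2 : rel K (fun i => 2 * i + 1) y ∉ Ev K := by
      intro h1
      apply hy0
      have h2 : rel K (fun i => 2 * i + 1) y = 0 := by
        apply ext_cf
        intro w
        rw [c_zero]
        by_cases hw : ∀ a ∈ w, a.1 % 2 = 1
        · exact h1 w hw
        · push Not at hw
          exact cf_odd K y w hw
      rw [← rel_odd K y, h2, map_zero]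
    obtain ⟨mu, h1, h2⟩ := Submodule.exists_dual_map_eq_bot_of_notMem hc2 inferInstance
    have h3 : ∀ z ∈ Ev K, mu z = 0 := by
      intro z hz
      have : mu z ∈ (Ev K).map mu := Submodule.mem_map_of_mem hz
      rw [h2] at this
      exact (Submodule.mem_bot K).1 this
    have h4 := T_test K p q hq hqp mu h3 (r - x) y hgn (hQ hy) hgn' (hQ hy')
    rw [hu0, map_zero] at h4
    have h5 : rel K (fun i => 2 * i) (r - x) = 0 := by
      rcases smul_eq_zero.1 h4.symm with h | h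
      · exact absurd h h1
      · exact h
    have h6 : r - x = 0 := by rw [← rel_even K (r - x), h5, map_zero]
    exact sub_eq_zero.1 h6
  apply le_antisymm
  · intro x hx
    obtain ⟨r, hr, g, hg, hrg⟩ := Submodule.mem_sup.1
      (first' K p q hq hqp P Q R Q hP hQ hR hQ rP rQ rR rQ h0 h.le hx)
    have := key x hx r hr (by
      have e : r - x = -g := by rw [← hrg]; abel
      rw [e]; exact Submodule.neg_mem _ hg)
    rw [← this]; exact hr
  · intro r hr
    obtain ⟨x, hx, g, hg, hrg⟩ := Submodule.mem_sup.1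
      (first' K p q hq hqp R Q P Q hR hQ hP hQ rR rQ rP rQ h0 h.ge hr)
    have := key x hx r hr (by
      have e : r - x = g := by rw [← hrg]; abel
      rw [e]; exact hg)
    rw [this]; exact hx

lemma RI_mono (Q S : Submodule K (F K)) (h : Q ≤ S) : RI K Q ≤ RI K S := by
  apply Submodule.span_mono
  rintro _ ⟨s, hs, g, rfl⟩
  exact ⟨s, h hs, g, rfl⟩

/-- general root lemma -/
theorem root (p q dP dQ dR dS : ℕ) (P Q R S : Submodule K (F K)) (hq : 1 ≤ q) (hqp : q < p)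
    (mP : Mk K P p dP) (mQ : Mk K Q q dQ) (mR : Mk K R p dR) (mS : Mk K S q dS)
    (kQ : Kil K Q) (kS : Kil K S) (h1 : ¬ P ≤ RI K S) (h2 : ∀ x ∈ P, x ∈ RI K Q → x = 0)
    (h : br K P Q = br K R S) : P = R ∧ Q = S := by
  have e1 : Q ≤ S := by
    obtain ⟨x, hx, hx0⟩ := SetLike.not_le_iff_exists.1 h1
    exact second K p q hq hqp.le P Q R S mP.hn mQ.hn mR.hn mS.hn mP.hr mQ.hr mS.hr kS h.le x hx hx0
  have e2 : S ≤ Q := by
    have h3 : ¬ R ≤ RI K Q := by
      intro h4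
      apply h1
      refine (first' K p q hq hqp.le P Q R S mP.hn mQ.hn mR.hn mS.hn mP.hr mQ.hr mR.hr mS.hr mQ.h0
        h.le).trans ?_
      exact sup_le (h4.trans (RI_mono K Q S e1)) le_rfl
    obtain ⟨x, hx, hx0⟩ := SetLike.not_le_iff_exists.1 h3
    exact second K p q hq hqp.le R S P Q mR.hn mS.hn mP.hn mQ.hn mR.hr mS.hr mQ.hr kQ h.ge x hx hx0
  have e : Q = S := le_antisymm e1 e2
  subst e
  exact ⟨canc K p q hq hqp.le P Q R mP.hn mQ.hn mR.hn mP.hr mQ.hr mR.hr mQ.h0 h2 h, rfl⟩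

/-- no element of a commutator space in the right ideal -/
lemma sep_br (a b q d1 d2 e : ℕ) (hb : 1 ≤ b) (hq : 1 ≤ q) (hba : b ≤ a) (hqa : q ≤ a)
    (P1 P2 Q : Submodule K (F K)) (g1 : ∀ x ∈ P1, G K a d1 x) (g2 : ∀ x ∈ P2, G K b d2 x)
    (g3 : ∀ x ∈ Q, G K q e x) (p1 : ∀ x ∈ P1, Prim K x) (p2 : ∀ x ∈ P2, Prim K x)
    (p3 : ∀ x ∈ Q, Prim K x) (hn : ¬ ∃ i j : ℕ, a = i * b + j * q ∧ d1 = i * d2 + j * e) :
    ∀ x ∈ br K P1 P2, x ∈ RI K Q → x = 0 := by
  intro u hu huQ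
  have n1 : P1 ≤ Hn K a := fun x hx => (g1 x hx).hn
  have n2 : P2 ≤ Hn K b := fun x hx => (g2 x hx).hn
  have n3 : Q ≤ Hn K q := fun x hx => (g3 x hx).hn
  apply vanish K a b hba P1 P2 (RI K P2 ⊔ RI K Q) n1 n2 le_sup_left _ u hu
  · intro mu
    exact Submodule.mem_sup_right (T_RI K a q hqa mu Q n3 u huQ)
  · intro x hx hxY
    by_contra hx0
    exact hn (two_prim K b q d2 e hb hq P2 Q g2 g3 p2 p3 a d1 x (g1 x hx) hx0 (p1 x hx) hxY)

/-- no element of the image of the derivation in the right ideal -/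
lemma sep_dl (hL : S_LD K) (p q e : ℕ) (hq : 1 ≤ q) (hqp : q < p) (N Q : Submodule K (F K))
    (hN : N ≤ Hn K p) (g3 : ∀ x ∈ Q, G K q e x) :
    ∀ x ∈ N.map (R325.BH.dl K), x ∈ RI K Q → x = 0 := by
  intro x hx hxQ
  obtain ⟨y, hy, rfl⟩ := Submodule.mem_map.1 hx
  by_contra h0
  have hy0 : y ≠ 0 := by
    rintro rfl
    exact h0 (map_zero _)
  obtain ⟨w1, w2, h1, h2, h3⟩ := hL.1 q p y hq hqp (hN hy) hy0
  exact h3 ((RI_pre K q e Q g3 _ hxQ w1 h1).2.trans (RI_pre K q e Q g3 _ hxQ w2 h2).2.symm)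

end Pool.Agent.Helper28.BX
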