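import Pool.Graph.R_seed8.R325.BH.TREE3
import Pool.Graph.R_seed8.R325.BH.KIL
import Pool.Graph.R_seed8.R325.BH.SLP
import Pool.Graph.R_seed8.R325.BH.NM

/-! Marked spaces consist of primitive elements; the contraction operators. -/

set_option linter.all false
universe u
namespace Pool.Agent.Helper28.BX

open Pool.Agent.Results.MP_5ecbac_al
open ThreeCherries ThreeCherries.Br Skeleton
open Pool.Agent.R325.BH
open scoped TensorProduct

attribute [local instance 100] LieRing.ofAssociativeRing

variable (K : Type u) [Field K]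

/-- comultiplication -/
noncomputable def Del : F K →ₐ[K] F K ⊗[K] F K :=
  MonoidAlgebra.lift K (F K ⊗[K] F K) (FreeMonoid (ℕ × ℕ))
    (FreeMonoid.lift (fun a : ℕ × ℕ => wd K [a] ⊗ₜ[K] (1 : F K) + (1 : F K) ⊗ₜ[K] wd K [a]))

/-- augmentation -/
noncomputable def eps : F K →ₐ[K] K :=
  MonoidAlgebra.lift K K (FreeMonoid (ℕ × ℕ)) (FreeMonoid.lift (fun _ : ℕ × ℕ => (0 : K)))

/-- primitive elements -/
def Prim (x : F K) : Prop := Del K x = x ⊗ₜ[K] (1 : F K) + (1 : F K) ⊗ₜ[K] x

lemma prim_letter (a : ℕ × ℕ) : Prim K (wd K [a]) := by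
  unfold Prim Del wd
  rw [MonoidAlgebra.lift_single]
  simp

lemma prim_zero : Prim K (0 : F K) := by simp [Prim]

lemma prim_add {x y : F K} (hx : Prim K x) (hy : Prim K y) : Prim K (x + y) := by
  unfold Prim at *
  rw [map_add, hx, hy, TensorProduct.add_tmul, TensorProduct.tmul_add]
  abel

lemma prim_smul (c : K) {x : F K} (hx : Prim K x) : Prim K (c • x) := by
  unfold Prim at *
  rw [map_smul, hx, smul_add, TensorProduct.smul_tmul', TensorProduct.tmul_smul]

lemma prim_sub {x y : F K} (hx : Prim K x) (hy : Prim K y) : Prim K (x - y) := by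
  have := prim_add K hx (prim_smul K (-1) hy)
  rwa [neg_one_smul, ← sub_eq_add_neg] at this

lemma prim_br {x y : F K} (hx : Prim K x) (hy : Prim K y) : Prim K (x * y - y * x) := by
  unfold Prim at *
  rw [map_sub, map_mul, map_mul, hx, hy]
  simp only [mul_add, add_mul, Algebra.TensorProduct.tmul_mul_tmul, one_mul, mul_one,
    TensorProduct.sub_tmul, TensorProduct.tmul_sub]
  abel

/-- Lie polynomials in the letters -/
inductive Lz : F K → Prop
  | lt (a : ℕ × ℕ) : Lz (wd K [a])
  | zero : Lz 0
  | add {x y : F K} : Lz x → Lz y → Lz (x + y)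
  | smul (c : K) {x : F K} : Lz x → Lz (c • x)
  | br {x y : F K} : Lz x → Lz y → Lz (x * y - y * x)

lemma Lz.prim {x : F K} (h : Lz K x) : Prim K x := by
  induction h with
  | lt a => exact prim_letter K a
  | zero => exact prim_zero K
  | add _ _ h1 h2 => exact prim_add K h1 h2
  | smul c _ h => exact prim_smul K c h
  | br _ _ h1 h2 => exact prim_br K h1 h2

lemma dl_letter (a : ℕ × ℕ) : dl K (wd K [a]) = wd K [(a.1, a.2 + 1)] := by
  unfold R325.BH.dl wd
  simp only [LinearMap.coe_comp, LinearEquiv.coe_coe, Function.comp_apply]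
  have h : (MonoidAlgebra.coeffLinearEquiv K)
      (MonoidAlgebra.single (FreeMonoid.ofList [a]) (1 : K)) =
      Finsupp.single (FreeMonoid.ofList [a]) (1 : K) := rfl
  rw [h, Finsupp.linearCombination_single, one_smul]
  unfold dW
  simp [wd, upW]

lemma dl_lz (hD : S_DL K) {x : F K} (h : Lz K x) : Lz K (dl K x) := by
  induction h with
  | lt a => rw [dl_letter]; exact Lz.lt _
  | zero => rw [map_zero]; exact Lz.zero
  | add _ _ h1 h2 => rw [map_add]; exact Lz.add h1 h2
  | smul c _ h => rw [map_smul]; exact Lz.smul c h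
  | @br x y hx hy h1 h2 =>
    have e : dl K (x * y - y * x) = (dl K x * y - y * dl K x) + (x * dl K y - dl K y * x) := by
      rw [map_sub, hD.1, hD.1]; abel
    rw [e]
    exact Lz.add (Lz.br h1 hy) (Lz.br hx h2)

lemma lz_span {s : Set (F K)} (hs : ∀ x ∈ s, Lz K x) : ∀ x ∈ Submodule.span K s, Lz K x := by
  intro x hx
  induction hx using Submodule.span_induction with
  | mem x h => exact hs x h
  | zero => exact Lz.zero
  | add x y _ _ h1 h2 => exact Lz.add h1 h2
  | smul c x _ h => exact Lz.smul c h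

lemma lz_br {P Q : Submodule K (F K)} (hP : ∀ x ∈ P, Lz K x) (hQ : ∀ x ∈ Q, Lz K x) :
    ∀ x ∈ br K P Q, Lz K x := by
  apply lz_span
  rintro _ ⟨x, hx, y, hy, rfl⟩
  exact Lz.br (hP x hx) (hQ y hy)

lemma M_lz (hD : S_DL K) : ∀ s : Br, s ≠ leaf → ∀ x ∈ M K s, Lz K x
  | leaf, h => absurd rfl h
  | node leaf leaf, _ => by
    rw [M]
    apply lz_span
    rintro _ ⟨i, rfl⟩
    exact Lz.lt _
  | node leaf (node a b), _ => by
    intro x hx
    rw [M, Submodule.mem_map] at hx
    obtain ⟨y, hy, rfl⟩ := hx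
    exact dl_lz K hD (M_lz hD (node a b) nofun y hy)
  | node (node a b) leaf, _ => by
    intro x hx
    rw [M, Submodule.mem_map] at hx
    obtain ⟨y, hy, rfl⟩ := hx
    exact dl_lz K hD (M_lz hD (node a b) nofun y hy)
  | node (node a b) (node c d), _ => by
    rw [M]
    exact lz_br K (M_lz hD (node a b) nofun) (M_lz hD (node c d) nofun)

/-- contraction of the comultiplication with a functional in the first factor -/
noncomputable def Dm (lam : F K →ₗ[K] K) : F K →ₗ[K] F K :=
  ((TensorProduct.lid K (F K)).toLinearMap ∘ₗ LinearMap.rTensor (F K) lam) ∘ₗ (Del K).toLinearMap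

lemma Dm_apply (lam : F K →ₗ[K] K) (x : F K) :
    Dm K lam x = TensorProduct.lid K (F K) (LinearMap.rTensor (F K) lam (Del K x)) := rfl

lemma Dm_prim (lam : F K →ₗ[K] K) {x : F K} (hx : Prim K x) :
    Dm K lam x = lam x • (1 : F K) + lam 1 • x := by
  rw [Dm_apply, hx, map_add, map_add, LinearMap.rTensor_tmul, LinearMap.rTensor_tmul,
    TensorProduct.lid_tmul, TensorProduct.lid_tmul]

lemma Dm_mul (lam : F K →ₗ[K] K) {s : F K} (hs : Prim K s) (h0 : ∀ g, lam (s * g) = 0) (g : F K) :
    Dm K lam (s * g) = s * Dm K lam g := by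
  rw [Dm_apply, Dm_apply, map_mul, hs]
  generalize Del K g = X
  induction X using TensorProduct.induction_on with
  | zero => simp
  | tmul a b =>
    rw [add_mul, Algebra.TensorProduct.tmul_mul_tmul, Algebra.TensorProduct.tmul_mul_tmul, one_mul,
      one_mul, map_add, map_add, LinearMap.rTensor_tmul, LinearMap.rTensor_tmul,
      LinearMap.rTensor_tmul, TensorProduct.lid_tmul, TensorProduct.lid_tmul,
      TensorProduct.lid_tmul, h0, zero_smul, zero_add, mul_smul_comm]
  | add a b ha hb =>
    rw [mul_add, map_add, map_add, ha, hb, map_add, map_add, mul_add]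

/-- counit property -/
lemma counit : (TensorProduct.rid K (F K)).toLinearMap ∘ₗ
    LinearMap.lTensor (F K) (eps K).toLinearMap ∘ₗ (Del K).toLinearMap = LinearMap.id := by
  have h : ((Algebra.TensorProduct.rid K K (F K)).toAlgHom.comp
      (Algebra.TensorProduct.map (AlgHom.id K (F K)) (eps K))).comp (Del K) = AlgHom.id K (F K) := by
    apply MonoidAlgebra.algHom_ext'
    · apply FreeMonoid.hom_eq
      intro a
      simp only [MonoidHom.coe_comp, Function.comp_apply, AlgHom.coe_toMonoidHom]
      show (Algebra.TensorProduct.rid K K (F K)) (Algebra.TensorProduct.map (AlgHom.id K (F K))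
        (eps K) (Del K (wd K [a]))) = wd K [a]
      rw [prim_letter K a, map_add, map_add, Algebra.TensorProduct.map_tmul,
        Algebra.TensorProduct.map_tmul]
      have h1 : eps K (wd K [a]) = 0 := by
        unfold eps wd
        rw [MonoidAlgebra.lift_single]
        simp
      rw [h1]
      simp
    · exact Subsingleton.elim _ _
  apply LinearMap.ext
  intro x
  exact congrArg (fun f : F K →ₐ[K] F K => f x) h

lemma eps_Dm (lam : F K →ₗ[K] K) (x : F K) : eps K (Dm K lam x) = lam x := by
  have h1 : lam x = lam (TensorProduct.rid K (F K)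
      (LinearMap.lTensor (F K) (eps K).toLinearMap (Del K x))) := by
    conv_lhs => rw [← LinearMap.id_apply (R := K) x, ← counit K]
    rfl
  rw [h1, Dm_apply]
  generalize Del K x = X
  induction X using TensorProduct.induction_on with
  | zero => simp
  | tmul a b =>
    rw [LinearMap.rTensor_tmul, LinearMap.lTensor_tmul, TensorProduct.lid_tmul,
      TensorProduct.rid_tmul, map_smul, map_smul]
    simp [mul_comm]
  | add a b ha hb =>
    simp only [map_add, ha, hb]

lemma eps_Hn (n : ℕ) (hn : 1 ≤ n) (x : F K) (hx : x ∈ Hn K n) : eps K x = 0 := by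
  unfold eps
  rw [MonoidAlgebra.lift_apply]
  apply Finset.sum_eq_zero
  intro m hm
  by_cases h : (FreeMonoid.toList m).length = n
  · have h2 : (FreeMonoid.lift (fun _ : ℕ × ℕ => (0 : K))) m = 0 := by
      rw [FreeMonoid.lift_apply]
      apply List.prod_eq_zero
      rw [List.mem_map]
      obtain ⟨a, ha⟩ := List.exists_mem_of_length_pos (by omega : 0 < (FreeMonoid.toList m).length)
      exact ⟨a, ha, rfl⟩
    show x.coeff m • (FreeMonoid.lift (fun _ : ℕ × ℕ => (0 : K))) m = 0
    rw [h2, smul_zero]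
  · exact absurd (hx (FreeMonoid.toList m) h) (Finsupp.mem_support_iff.1 hm)

end Pool.Agent.Helper28.BX
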