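import Pool.Agent.Helper28.BX.Prim

/-! The root lemma for two factors whose lengths do not divide each other. -/

set_option linter.all false
universe u
namespace Pool.Agent.Helper28.BX

open Pool.Agent.Results.MP_5ecbac_al
open ThreeCherries ThreeCherries.Br Skeleton
open Pool.Agent.R325.BH
open scoped TensorProduct

attribute [local instance 100] LieRing.ofAssociativeRing

section basic
variable {K : Type u} [Field K]

lemma ext_cf (x y : F K) (h : ∀ w, cf x w = cf y w) : x = y := by
  apply MonoidAlgebra.ext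
  ext w
  exact h w.toList

lemma c_zero (w : Wd) : cf (0 : F K) w = 0 := by simp [cf]

lemma c_add (x y : F K) (w : Wd) : cf (x + y) w = cf x w + cf y w := by simp [cf]

lemma c_sub (x y : F K) (w : Wd) : cf (x - y) w = cf x w - cf y w := by simp [cf]

lemma c_smul (c : K) (x : F K) (w : Wd) : cf (c • x) w = c * cf x w := by simp [cf]

lemma c_wd (v w : Wd) : cf (wd K v) w = if v = w then 1 else 0 := by
  classical
  unfold cf wd
  rw [MonoidAlgebra.coeff_single, Finsupp.single_apply]
  by_cases h : v = w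
  · rw [if_pos h, if_pos (by rw [h])]
  · rw [if_neg h, if_neg (fun h' => h (FreeMonoid.ofList.injective h'))]

lemma wd_mul (u v : Wd) : wd K (u ++ v) = wd K u * wd K v := by
  unfold wd
  rw [MonoidAlgebra.single_mul_single, one_mul, FreeMonoid.ofList_append]

/-- an element supported on a set of words is in the span of these words -/
lemma mem_words (p : Wd → Prop) (x : F K) (hx : ∀ w, ¬ p w → cf x w = 0) :
    x ∈ Submodule.span K {z | ∃ w : Wd, p w ∧ z = wd K w} := by
  classical
  have h : x = ∑ m ∈ x.coeff.support, x.coeff m • wd K (FreeMonoid.toList m) := by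
    apply ext_cf
    intro w
    have h1 : cf (∑ m ∈ x.coeff.support, x.coeff m • wd K (FreeMonoid.toList m)) w =
        ∑ m ∈ x.coeff.support, cf (x.coeff m • wd K (FreeMonoid.toList m)) w := by
      induction x.coeff.support using Finset.induction_on with
      | empty => simp [c_zero]
      | insert a s ha ih => rw [Finset.sum_insert ha, Finset.sum_insert ha, c_add, ih]
    rw [h1]
    simp only [c_smul, c_wd]
    by_cases hw : FreeMonoid.ofList w ∈ x.coeff.support
    · rw [Finset.sum_eq_single (FreeMonoid.ofList w)]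
      · rw [FreeMonoid.toList_ofList, if_pos rfl, mul_one]; rfl
      · intro b _ hb
        rw [if_neg, mul_zero]
        rintro h
        exact hb (by rw [← h, FreeMonoid.ofList_toList])
      · intro h; exact absurd hw h
    · rw [Finset.sum_eq_zero]
      · exact Finsupp.notMem_support_iff.1 hw
      · intro m hm
        rw [if_neg, mul_zero]
        rintro h
        exact hw (by rw [← h, FreeMonoid.ofList_toList]; exact hm)
  rw [h]
  apply Submodule.sum_mem
  intro m hm
  apply Submodule.smul_mem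
  apply Submodule.subset_span
  refine ⟨FreeMonoid.toList m, ?_, rfl⟩
  by_contra hp
  exact (Finsupp.mem_support_iff.1 hm) (hx _ hp)

lemma mem_Hn_words (p : ℕ) (x : F K) (hx : x ∈ Hn K p) :
    x ∈ Submodule.span K {z | ∃ w : Wd, w.length = p ∧ z = wd K w} :=
  mem_words (fun w => w.length = p) x hx

end basic

variable (K : Type u) [Field K]

/-- right ideal generated by `S` -/
noncomputable def RI (S : Submodule K (F K)) : Submodule K (F K) :=
  Submodule.span K {z | ∃ s ∈ S, ∃ g : F K, z = s * g}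

/-- left derivative by a word -/
noncomputable def Cw (v : Wd) : F K →ₗ[K] F K :=
  (MonoidAlgebra.coeffLinearEquiv K).symm.toLinearMap ∘ₗ
    (Finsupp.lcomapDomain (fun m : FreeMonoid (ℕ × ℕ) => FreeMonoid.ofList v * m)
      (mul_right_injective _)) ∘ₗ (MonoidAlgebra.coeffLinearEquiv K).toLinearMap

lemma cf_Cw (v w : Wd) (x : F K) : cf (Cw K v x) w = cf x (v ++ w) := rfl

lemma Cw_mul (q : ℕ) (v : Wd) (hv : v.length = q) (s g : F K) (hs : s ∈ Hn K q) :
    Cw K v (s * g) = cf s v • g := by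
  apply ext_cf
  intro w
  rw [cf_Cw, MUL K q s g hs _ (by rw [List.length_append]; omega), List.take_left' hv,
    List.drop_left' hv, c_smul]

lemma Dm_Cw (lam : F K →ₗ[K] K) (q : ℕ) (v : Wd) (hv : v.length = q) (S : Submodule K (F K))
    (hS : S ≤ Hn K q) (hp : ∀ s ∈ S, Prim K s) (h0 : ∀ z ∈ RI K S, lam z = 0) :
    ∀ z ∈ RI K S, Dm K lam (Cw K v z) = Cw K v (Dm K lam z) := by
  intro z hz
  induction hz using Submodule.span_induction with
  | mem z h =>
    obtain ⟨s, hs, g, rfl⟩ := h
    rw [Cw_mul K q v hv s g (hS hs), Dm_mul K lam (hp s hs)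
      (fun g => h0 _ (Submodule.subset_span ⟨s, hs, g, rfl⟩)), Cw_mul K q v hv s _ (hS hs), map_smul]
  | zero => simp
  | add x y _ _ h1 h2 => rw [map_add, map_add, map_add, map_add, h1, h2]
  | smul c x _ h => rw [map_smul, map_smul, map_smul, map_smul, h]

lemma RI_short (q : ℕ) (S : Submodule K (F K)) (hS : S ≤ Hn K q) (w : Wd) (hw : w.length < q) :
    ∀ z ∈ RI K S, cf z w = 0 := by
  intro z hz
  induction hz using Submodule.span_induction with
  | mem z h =>
    obtain ⟨s, hs, g, rfl⟩ := h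
    by_contra hne
    obtain ⟨w1, w2, h1, h2, -⟩ := FSTaux.cf_mul_ne _ _ _ hne
    have h3 : w1.length = q := by
      by_contra hc
      exact h2 (hS hs _ hc)
    rw [h1, List.length_append] at hw
    omega
  | zero => exact c_zero w
  | add x y _ _ h1 h2 => rw [c_add, h1, h2, add_zero]
  | smul c x _ h => rw [c_smul, h, mul_zero]

theorem c0 (q : ℕ) (hq : 1 ≤ q) (S : Submodule K (F K)) (hS : S ≤ Hn K q)
    (hp : ∀ s ∈ S, Prim K s) : ∀ (n : ℕ) (f : F K), f ∈ Hn K n → ¬ q ∣ n →
    (∀ lam : F K →ₗ[K] K, (∀ z ∈ RI K S, lam z = 0) → Dm K lam f = lam 1 • f) → f = 0 := by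
  intro n
  induction n using Nat.strong_induction_on with
  | _ n ih =>
  intro f hf hn h
  have hn1 : 1 ≤ n := by
    rcases Nat.eq_zero_or_pos n with h0 | h0
    · subst h0; exact absurd (dvd_zero q) hn
    · exact h0
  have hmem : f ∈ RI K S := by
    by_contra hc
    obtain ⟨lam, h1, h2⟩ := Submodule.exists_dual_map_eq_bot_of_notMem hc inferInstance
    have h3 : ∀ z ∈ RI K S, lam z = 0 := by
      intro z hz
      have : lam z ∈ (RI K S).map lam := Submodule.mem_map_of_mem hz
      rw [h2] at this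
      exact (Submodule.mem_bot K).1 this
    apply h1
    have h4 := congrArg (eps K) (h lam h3)
    rw [eps_Dm, map_smul, eps_Hn K n hn1 f hf, smul_zero] at h4
    exact h4
  apply ext_cf
  intro w
  rw [c_zero]
  by_cases hw : w.length = n
  · by_cases hqn : n < q
    · exact RI_short K q S hS w (by omega) f hmem
    · have hl : (w.take q).length = q := by rw [List.length_take]; omega
      have h5 : Cw K (w.take q) f = 0 := by
        apply ih (n - q) (by omega)
        · intro u hu
          rw [cf_Cw]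
          apply hf
          rw [List.length_append, hl]
          omega
        · intro hd
          apply hn
          have := Nat.dvd_add hd (dvd_refl q)
          rwa [Nat.sub_add_cancel (by omega)] at this
        · intro lam hlam
          rw [Dm_Cw K lam q _ hl S hS hp hlam f hmem, h lam hlam, map_smul]
      have h6 := cf_Cw K (w.take q) (w.drop q) f
      rw [h5, c_zero, List.take_append_drop] at h6
      exact h6.symm
  · exact hf w hw

/-- a primitive element of degree `n` in the right ideal of primitive elements of degree `q` -/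
theorem c1 (q n : ℕ) (hq : 1 ≤ q) (hn : ¬ q ∣ n) (S : Submodule K (F K)) (hS : S ≤ Hn K q)
    (hp : ∀ s ∈ S, Prim K s) (u : F K) (hu : u ∈ Hn K n) (hup : Prim K u) (hm : u ∈ RI K S) :
    u = 0 := by
  apply c0 K q hq S hS hp n u hu hn
  intro lam hlam
  rw [Dm_prim K lam hup, hlam u hm, zero_smul, zero_add]

/-- apply a functional to the letters after the first `p` -/
noncomputable def T (p : ℕ) (mu : F K →ₗ[K] K) : F K →ₗ[K] F K :=
  (Finsupp.linearCombination K (fun m : FreeMonoid (ℕ × ℕ) =>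
    mu (wd K ((FreeMonoid.toList m).drop p)) • wd K ((FreeMonoid.toList m).take p))) ∘ₗ
    (MonoidAlgebra.coeffLinearEquiv K).toLinearMap

lemma T_wd (p : ℕ) (mu : F K →ₗ[K] K) (w : Wd) :
    T K p mu (wd K w) = mu (wd K (w.drop p)) • wd K (w.take p) := by
  unfold T
  simp only [LinearMap.coe_comp, LinearEquiv.coe_coe, Function.comp_apply]
  have h : (MonoidAlgebra.coeffLinearEquiv K) (wd K w) =
      Finsupp.single (FreeMonoid.ofList w) (1 : K) := rfl
  rw [h, Finsupp.linearCombination_single, one_smul, FreeMonoid.toList_ofList]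

lemma word_ind (P : F K → Prop) (h0 : P 0) (ha : ∀ x y, P x → P y → P (x + y))
    (hs : ∀ (c : K) x, P x → P (c • x)) (hw : ∀ w : Wd, P (wd K w)) (x : F K) : P x := by
  have hx := mem_words (fun _ => True) x (fun w hw => absurd trivial hw)
  induction hx using Submodule.span_induction with
  | mem z h => obtain ⟨w, -, rfl⟩ := h; exact hw w
  | zero => exact h0
  | add x y _ _ h1 h2 => exact ha x y h1 h2
  | smul c x _ h => exact hs c x h

lemma T_left (p : ℕ) (mu : F K →ₗ[K] K) (x : F K) (hx : x ∈ Hn K p) (g : F K) :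
    T K p mu (x * g) = mu g • x := by
  replace hx := mem_Hn_words p x hx
  induction hx using Submodule.span_induction with
  | mem z h =>
    obtain ⟨w, hw, rfl⟩ := h
    induction g using word_ind K with
    | h0 => simp
    | ha a b h1 h2 => rw [mul_add, map_add, map_add, add_smul, h1, h2]
    | hs c a h => rw [mul_smul_comm, map_smul, map_smul, h, smul_assoc]
    | hw v => rw [← wd_mul, T_wd, List.take_left' hw, List.drop_left' hw]
  | zero => simp
  | add x y _ _ h1 h2 => rw [add_mul, map_add, h1, h2, smul_add]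
  | smul c x _ h => rw [smul_mul_assoc, map_smul, h, smul_comm]

lemma T_right (p q : ℕ) (hqp : q ≤ p) (mu : F K →ₗ[K] K) (s : F K) (hs : s ∈ Hn K q) (g : F K) :
    T K p mu (s * g) = s * T K (p - q) mu g := by
  replace hs := mem_Hn_words q s hs
  induction hs using Submodule.span_induction with
  | mem z h =>
    obtain ⟨w, hw, rfl⟩ := h
    induction g using word_ind K with
    | h0 => simp
    | ha a b h1 h2 => rw [mul_add, map_add, map_add, mul_add, h1, h2]
    | hs c a h => rw [mul_smul_comm, map_smul, map_smul, h, mul_smul_comm]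
    | hw v =>
      rw [← wd_mul, T_wd, T_wd, mul_smul_comm, ← wd_mul]
      have e1 : (w ++ v).drop p = v.drop (p - q) := by
        rw [List.drop_append, List.drop_eq_nil_of_le (by omega), List.nil_append, hw]
      have e2 : (w ++ v).take p = w ++ v.take (p - q) := by
        rw [List.take_append, List.take_of_length_le (by omega), hw]
      rw [e1, e2]
  | zero => simp
  | add x y _ _ h1 h2 => rw [add_mul, map_add, h1, h2, add_mul]
  | smul c x _ h => rw [smul_mul_assoc, map_smul, h, smul_mul_assoc]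

lemma T_br (p q : ℕ) (hqp : q ≤ p) (mu : F K →ₗ[K] K) (R S : Submodule K (F K))
    (hR : R ≤ Hn K p) (hS : S ≤ Hn K q) (X : Submodule K (F K)) (hX : RI K S ≤ X)
    (h : ∀ r ∈ R, ∀ s ∈ S, mu s • r ∈ X) : ∀ z ∈ br K R S, T K p mu z ∈ X := by
  intro z hz
  induction hz using Submodule.span_induction with
  | mem z hz =>
    obtain ⟨r, hr, s, hs, rfl⟩ := hz
    rw [map_sub, T_left K p mu r (hR hr) s, T_right K p q hqp mu s (hS hs) r]
    exact Submodule.sub_mem _ (h r hr s hs) (hX (Submodule.subset_span ⟨s, hs, _, rfl⟩))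
  | zero => rw [map_zero]; exact Submodule.zero_mem _
  | add x y _ _ h1 h2 => rw [map_add]; exact Submodule.add_mem _ h1 h2
  | smul c x _ h => rw [map_smul]; exact Submodule.smul_mem _ _ h

/-- elements without words all of whose labels are odd -/
def Ev : Submodule K (F K) where
  carrier := {x | ∀ w : Wd, (∀ a ∈ w, a.1 % 2 = 1) → cf x w = 0}
  add_mem' {a b} ha hb w h := by rw [c_add, ha w h, hb w h, add_zero]
  zero_mem' w h := c_zero w
  smul_mem' c a ha w h := by rw [c_smul, ha w h, mul_zero]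

lemma rel_wd (r : ℕ → ℕ) (w : Wd) : rel K r (wd K w) = wd K (w.map (fun a => (r a.1, a.2))) := by
  unfold rel wd
  rw [MonoidAlgebra.mapDomainAlgHom_apply, MonoidAlgebra.mapDomain_single]
  rfl

lemma rel_rel (r r' : ℕ → ℕ) (x : F K) : rel K r (rel K r' x) = rel K (r ∘ r') x := by
  induction x using word_ind K with
  | h0 => simp
  | ha a b h1 h2 => rw [map_add, map_add, map_add, h1, h2]
  | hs c a h => rw [map_smul, map_smul, map_smul, h]
  | hw w => rw [rel_wd, rel_wd, rel_wd, List.map_map]; rfl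

lemma rel_id (x : F K) : rel K (fun i => i) x = x := by
  induction x using word_ind K with
  | h0 => simp
  | ha a b h1 h2 => rw [map_add, h1, h2]
  | hs c a h => rw [map_smul, h]
  | hw w => rw [rel_wd]; simp

lemma rel_even (x : F K) : rel K (fun i => i / 2) (rel K (fun i => 2 * i) x) = x := by
  rw [rel_rel]
  have : (fun i => i / 2) ∘ (fun i => 2 * i) = fun i : ℕ => i := by
    ext i; simp only [Function.comp_apply]; omega
  rw [this, rel_id]

lemma rel_odd (x : F K) : rel K (fun i => i / 2) (rel K (fun i => 2 * i + 1) x) = x := by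
  rw [rel_rel]
  have : (fun i => i / 2) ∘ (fun i => 2 * i + 1) = fun i : ℕ => i := by
    ext i; simp only [Function.comp_apply]; omega
  rw [this, rel_id]

lemma rel_RI (S : Submodule K (F K)) (hS : ∀ (r : ℕ → ℕ), ∀ x ∈ S, rel K r x ∈ S) (r : ℕ → ℕ) :
    ∀ z ∈ RI K S, rel K r z ∈ RI K S := by
  intro z hz
  induction hz using Submodule.span_induction with
  | mem z h =>
    obtain ⟨s, hs, g, rfl⟩ := h
    rw [map_mul]
    exact Submodule.subset_span ⟨_, hS r s hs, _, rfl⟩
  | zero => rw [map_zero]; exact Submodule.zero_mem _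
  | add x y _ _ h1 h2 => rw [map_add]; exact Submodule.add_mem _ h1 h2
  | smul c x _ h => rw [map_smul]; exact Submodule.smul_mem _ _ h

lemma cf_odd (y : F K) (w : Wd) (hw : ∃ a ∈ w, a.1 % 2 ≠ 1) : cf (rel K (fun i => 2 * i + 1) y) w = 0 := by
  induction y using word_ind K with
  | h0 => rw [map_zero]; exact c_zero w
  | ha a b h1 h2 => rw [map_add, c_add, h1, h2, add_zero]
  | hs c a h => rw [map_smul, c_smul, h, mul_zero]
  | hw v =>
    rw [rel_wd, c_wd, if_neg]
    rintro rfl
    obtain ⟨a, ha, h1⟩ := hw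
    rw [List.mem_map] at ha
    obtain ⟨b, -, rfl⟩ := ha
    simp only at h1
    omega

/-- the functional kills the mixed term -/
lemma T_even (p q : ℕ) (hq : 1 ≤ q) (hqp : q ≤ p) (mu : F K →ₗ[K] K) (hmu : ∀ z ∈ Ev K, mu z = 0)
    (x : F K) (hx : x ∈ Hn K p) : T K (p - q) mu (rel K (fun i => 2 * i) x) = 0 := by
  replace hx := mem_Hn_words p x hx
  induction hx using Submodule.span_induction with
  | mem z h =>
    obtain ⟨w, hw, rfl⟩ := h
    rw [rel_wd, T_wd, hmu, zero_smul]
    intro u hu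
    rw [c_wd, if_neg]
    rintro rfl
    have h1 : 0 < ((w.map (fun a : ℕ × ℕ => (2 * a.1, a.2))).drop (p - q)).length := by
      rw [List.length_drop, List.length_map]; omega
    obtain ⟨a, ha⟩ := List.exists_mem_of_length_pos h1
    have h2 := hu a ha
    have h3 := List.mem_of_mem_drop ha
    rw [List.mem_map] at h3
    obtain ⟨b, -, rfl⟩ := h3
    simp only at h2
    omega
  | zero => simp
  | add x y _ _ h1 h2 => rw [map_add, map_add, h1, h2, add_zero]
  | smul c x _ h => rw [map_smul, map_smul, h, smul_zero]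

lemma T_test (p q : ℕ) (hq : 1 ≤ q) (hqp : q ≤ p) (mu : F K →ₗ[K] K) (hmu : ∀ z ∈ Ev K, mu z = 0)
    (x y : F K) (hx : x ∈ Hn K p) (hy : y ∈ Hn K q)
    (hx' : rel K (fun i => 2 * i) x ∈ Hn K p) (hy' : rel K (fun i => 2 * i + 1) y ∈ Hn K q) :
    T K p mu (rel K (fun i => 2 * i) x * rel K (fun i => 2 * i + 1) y -
      rel K (fun i => 2 * i + 1) y * rel K (fun i => 2 * i) x) =
      mu (rel K (fun i => 2 * i + 1) y) • rel K (fun i => 2 * i) x := by
  rw [map_sub, T_left K p mu _ hx', T_right K p q hqp mu _ hy', T_even K p q hq hqp mu hmu x hx,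
    mul_zero, sub_zero]

/-- the second factor -/
lemma second (p q : ℕ) (hq : 1 ≤ q) (hqp : q ≤ p) (P Q R S : Submodule K (F K))
    (hP : P ≤ Hn K p) (hQ : Q ≤ Hn K q) (hR : R ≤ Hn K p) (hS : S ≤ Hn K q)
    (rP : ∀ (r : ℕ → ℕ), ∀ x ∈ P, rel K r x ∈ P) (rQ : ∀ (r : ℕ → ℕ), ∀ x ∈ Q, rel K r x ∈ Q)
    (rS : ∀ (r : ℕ → ℕ), ∀ x ∈ S, rel K r x ∈ S) (kS : Kil K S)
    (h : br K P Q ≤ br K R S) (x : F K) (hx : x ∈ P) (hxS : x ∉ RI K S) : Q ≤ S := by
  intro y hy
  have hx' := rP (fun i => 2 * i) x hx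
  have hy' := rQ (fun i => 2 * i + 1) y hy
  have hxS' : rel K (fun i => 2 * i) x ∉ RI K S := by
    intro h1
    apply hxS
    have := rel_RI K S rS (fun i => i / 2) _ h1
    rwa [rel_even] at this
  suffices h2 : rel K (fun i => 2 * i + 1) y ∈ S by
    have := rS (fun i => i / 2) _ h2
    rwa [rel_odd] at this
  by_contra hc
  have hc2 : rel K (fun i => 2 * i + 1) y ∉ S ⊔ Ev K := by
    intro h1
    apply hc
    obtain ⟨s, hs, e, he, hse⟩ := Submodule.mem_sup.1 h1
    obtain ⟨s', hs', h3, h4⟩ := kS (fun i => i % 2 = 1) s hs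
    have : rel K (fun i => 2 * i + 1) y = s' := by
      apply ext_cf
      intro w
      by_cases hw : ∀ a ∈ w, a.1 % 2 = 1
      · rw [h3 w hw, ← hse, c_add, he w hw, add_zero]
      · push Not at hw
        rw [h4 w hw, cf_odd K y w hw]
    rw [this]
    exact hs'
  obtain ⟨mu, h1, h2⟩ := Submodule.exists_dual_map_eq_bot_of_notMem hc2 inferInstance
  have h3 : ∀ z ∈ S ⊔ Ev K, mu z = 0 := by
    intro z hz
    have : mu z ∈ (S ⊔ Ev K).map mu := Submodule.mem_map_of_mem hz
    rw [h2] at this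
    exact (Submodule.mem_bot K).1 this
  have h4 := T_test K p q hq hqp mu (fun z hz => h3 z (Submodule.mem_sup_right hz)) x y (hP hx)
    (hQ hy) (hP hx') (hQ hy')
  have h5 := T_br K p q hqp mu R S hR hS (RI K S) le_rfl
    (fun r hr s hs => by rw [h3 s (Submodule.mem_sup_left hs), zero_smul]; exact Submodule.zero_mem _)
    _ (h (Submodule.subset_span ⟨_, hx', _, hy', rfl⟩))
  rw [h4] at h5
  apply hxS'
  have := Submodule.smul_mem _ (mu (rel K (fun i => 2 * i + 1) y))⁻¹ h5
  rwa [smul_smul, inv_mul_cancel₀ h1, one_smul] at this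

/-- the first factor -/
lemma first (p q : ℕ) (hq : 1 ≤ q) (hqp : q ≤ p) (P Q R : Submodule K (F K))
    (hP : P ≤ Hn K p) (hQ : Q ≤ Hn K q) (hR : R ≤ Hn K p)
    (rP : ∀ (r : ℕ → ℕ), ∀ x ∈ P, rel K r x ∈ P) (rQ : ∀ (r : ℕ → ℕ), ∀ x ∈ Q, rel K r x ∈ Q)
    (rR : ∀ (r : ℕ → ℕ), ∀ x ∈ R, rel K r x ∈ R) (h0 : ∃ y ∈ Q, y ≠ 0)
    (h : br K P Q ≤ br K R Q) : P ≤ R ⊔ RI K Q := by
  intro x hx
  obtain ⟨y, hy, hy0⟩ := h0
  have hx' := rP (fun i => 2 * i) x hx
  have hy' := rQ (fun i => 2 * i + 1) y hy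
  have hc2 : rel K (fun i => 2 * i + 1) y ∉ Ev K := by
    intro h1
    apply hy0
    have h2 : rel K (fun i => 2 * i + 1) y = 0 := by
      apply ext_cf
      intro w
      rw [c_zero]
      by_cases hw : ∀ a ∈ w, a.1 % 2 = 1
      · exact h1 w hw
      · push Not at hw
        exact cf_odd K y w hw
    rw [← rel_odd K y, h2, map_zero]
  obtain ⟨mu, h1, h2⟩ := Submodule.exists_dual_map_eq_bot_of_notMem hc2 inferInstance
  have h3 : ∀ z ∈ Ev K, mu z = 0 := by
    intro z hz
    have : mu z ∈ (Ev K).map mu := Submodule.mem_map_of_mem hz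
    rw [h2] at this
    exact (Submodule.mem_bot K).1 this
  have h4 := T_test K p q hq hqp mu h3 x y (hP hx) (hQ hy) (hP hx') (hQ hy')
  have h5 := T_br K p q hqp mu R Q hR hQ (R ⊔ RI K Q) le_sup_right
    (fun r hr s hs => Submodule.mem_sup_left (Submodule.smul_mem _ _ hr))
    _ (h (Submodule.subset_span ⟨_, hx', _, hy', rfl⟩))
  rw [h4] at h5
  have h6 := Submodule.smul_mem _ (mu (rel K (fun i => 2 * i + 1) y))⁻¹ h5
  rw [smul_smul, inv_mul_cancel₀ h1, one_smul] at h6
  obtain ⟨r, hr, g, hg, hrg⟩ := Submodule.mem_sup.1 h6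
  have h7 := congrArg (rel K (fun i => i / 2)) hrg
  rw [rel_even, map_add] at h7
  rw [← h7]
  exact Submodule.add_mem _ (Submodule.mem_sup_left (rR _ r hr))
    (Submodule.mem_sup_right (rel_RI K Q rQ _ g hg))

/-- root lemma, lengths not divisible -/
theorem ndv (p q dP dQ dR dS : ℕ) (P Q R S : Submodule K (F K)) (hq : 1 ≤ q) (hqp : q < p)
    (hd : ¬ q ∣ p) (mP : Mk K P p dP) (mQ : Mk K Q q dQ) (mR : Mk K R p dR) (mS : Mk K S q dS)
    (kQ : Kil K Q) (kS : Kil K S) (pP : ∀ x ∈ P, Prim K x) (pQ : ∀ x ∈ Q, Prim K x)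
    (pR : ∀ x ∈ R, Prim K x) (pS : ∀ x ∈ S, Prim K x) (h : br K P Q = br K R S) :
    P = R ∧ Q = S := by
  have e1 : Q ≤ S := by
    obtain ⟨x, hx, hx0⟩ := mP.h0
    exact second K p q hq hqp.le P Q R S mP.hn mQ.hn mR.hn mS.hn mP.hr mQ.hr mS.hr kS h.le x hx
      (fun hm => hx0 (c1 K q p hq hd S mS.hn pS x (mP.hn hx) (pP x hx) hm))
  have e2 : S ≤ Q := by
    obtain ⟨x, hx, hx0⟩ := mR.h0
    exact second K p q hq hqp.le R S P Q mR.hn mS.hn mP.hn mQ.hn mR.hr mS.hr mQ.hr kQ h.ge x hx
      (fun hm => hx0 (c1 K q p hq hd Q mQ.hn pQ x (mR.hn hx) (pR x hx) hm))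
  have e : Q = S := le_antisymm e1 e2
  subst e
  have key : ∀ P R : Submodule K (F K), P ≤ Hn K p → R ≤ Hn K p → (∀ x ∈ P, Prim K x) →
      (∀ x ∈ R, Prim K x) → P ≤ R ⊔ RI K Q → P ≤ R := by
    intro P R hP hR pP pR h x hx
    obtain ⟨r, hr, g, hg, hrg⟩ := Submodule.mem_sup.1 (h hx)
    have hg0 : g = 0 := by
      have e : g = x - r := by rw [← hrg]; abel
      apply c1 K q p hq hd Q mQ.hn pQ g _ _ hg
      · rw [e]; exact Submodule.sub_mem _ (hP hx) (hR hr)
      · rw [e]; exact prim_sub K (pP x hx) (pR r hr)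
    rw [← hrg, hg0, add_zero]
    exact hr
  refine ⟨le_antisymm ?_ ?_, rfl⟩
  · exact key P R mP.hn mR.hn pP pR
      (first K p q hq hqp.le P Q R mP.hn mQ.hn mR.hn mP.hr mQ.hr mR.hr mQ.h0 h.le)
  · exact key R P mR.hn mP.hn pR pP
      (first K p q hq hqp.le R Q P mR.hn mQ.hn mP.hn mR.hr mQ.hr mP.hr mQ.h0 h.ge)

end Pool.Agent.Helper28.BX
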