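import Pool.Agent.Helper28.BX.Gen
import Pool.Graph.R_seed8.R325.BH.PAIR

/-! Triples of spaces of the same length. -/

set_option linter.all false
universe u
namespace Pool.Agent.Helper28.BX

open Pool.Agent.Results.MP_5ecbac_al
open ThreeCherries ThreeCherries.Br Skeleton
open Pool.Agent.R325.BH
open scoped TensorProduct

attribute [local instance 100] LieRing.ofAssociativeRing

variable (K : Type u) [Field K]

/-- restriction to the words with labels `≡ c` modulo 3 -/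
noncomputable def Rc (c : ℕ) : F K →ₗ[K] F K :=
  (Finsupp.linearCombination K (fun m : FreeMonoid (ℕ × ℕ) =>
    if ∀ a ∈ FreeMonoid.toList m, a.1 % 3 = c then wd K (FreeMonoid.toList m) else 0)) ∘ₗ
    (MonoidAlgebra.coeffLinearEquiv K).toLinearMap

lemma Rc_wd (c : ℕ) (w : Wd) : Rc K c (wd K w) = if ∀ a ∈ w, a.1 % 3 = c then wd K w else 0 := by
  unfold Rc
  simp only [LinearMap.coe_comp, LinearEquiv.coe_coe, Function.comp_apply]
  have h : (MonoidAlgebra.coeffLinearEquiv K) (wd K w) =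
      Finsupp.single (FreeMonoid.ofList w) (1 : K) := rfl
  rw [h, Finsupp.linearCombination_single, one_smul, FreeMonoid.toList_ofList]

lemma cf_Rc (c : ℕ) (x : F K) (w : Wd) :
    cf (Rc K c x) w = if ∀ a ∈ w, a.1 % 3 = c then cf x w else 0 := by
  induction x using word_ind K with
  | h0 => simp only [map_zero, c_zero]; split_ifs <;> rfl
  | ha a b h1 h2 => rw [map_add, c_add, h1, h2, c_add]; split_ifs <;> simp
  | hs c a h => rw [map_smul, c_smul, h, c_smul]; split_ifs <;> simp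
  | hw v =>
    rw [Rc_wd]
    by_cases hv : ∀ a ∈ v, a.1 % 3 = c
    · rw [if_pos hv, c_wd]
      by_cases hw : v = w
      · subst hw; rw [if_pos rfl, if_pos hv]
      · rw [if_neg hw]; split_ifs <;> rfl
    · rw [if_neg hv, c_zero, c_wd]
      by_cases hw : v = w
      · subst hw; rw [if_neg hv]
      · rw [if_neg hw]; split_ifs <;> rfl

lemma Rc_mem {R : Submodule K (F K)} (hR : Kil K R) (c : ℕ) {x : F K} (hx : x ∈ R) :
    Rc K c x ∈ R := by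
  obtain ⟨y, hy, h1, h2⟩ := hR (fun i => i % 3 = c) x hx
  have : Rc K c x = y := by
    apply ext_cf
    intro w
    rw [cf_Rc]
    by_cases h : ∀ a ∈ w, a.1 % 3 = c
    · rw [if_pos h, h1 w h]
    · rw [if_neg h, h2 w (by push Not at h; simpa using h)]
  rw [this]
  exact hy

lemma Rc_hn (c p : ℕ) {x : F K} (hx : x ∈ Hn K p) : Rc K c x ∈ Hn K p := by
  intro w hw
  rw [cf_Rc]
  split_ifs
  · exact hx w hw
  · rfl

/-- the functional `f` on the words with labels `≡ c` -/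
noncomputable def ft (c : ℕ) (f : F K →ₗ[K] K) : F K →ₗ[K] K :=
  (f ∘ₗ (rel K (fun i => i / 3)).toLinearMap) ∘ₗ Rc K c

lemma ft_apply (c : ℕ) (f : F K →ₗ[K] K) (x : F K) :
    ft K c f x = f (rel K (fun i => i / 3) (Rc K c x)) := rfl

lemma ft_same (c : ℕ) (hc : c < 3) (f : F K →ₗ[K] K) (x : F K) :
    ft K c f (rel K (fun i => 3 * i + c) x) = f x := by
  rw [ft_apply]
  congr 1
  induction x using word_ind K with
  | h0 => simp
  | ha a b h1 h2 => rw [map_add, map_add, map_add, h1, h2]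
  | hs c a h => rw [map_smul, map_smul, map_smul, h]
  | hw v =>
    rw [rel_wd, Rc_wd, if_pos, rel_wd, List.map_map]
    · congr 1
      conv_rhs => rw [← List.map_id v]
      apply List.map_congr_left
      intro a _
      simp only [Function.comp_apply, id_eq]
      have : (3 * a.1 + c) / 3 = a.1 := by omega
      rw [this]
    · intro a ha
      rw [List.mem_map] at ha
      obtain ⟨b, -, rfl⟩ := ha
      show (3 * b.1 + c) % 3 = c
      omega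

lemma ft_diff (c c' p : ℕ) (hc : c < 3) (hc' : c' < 3) (hne : c ≠ c') (hp : 1 ≤ p)
    (f : F K →ₗ[K] K) (x : F K) (hx : x ∈ Hn K p) :
    ft K c f (rel K (fun i => 3 * i + c') x) = 0 := by
  rw [ft_apply]
  have : Rc K c (rel K (fun i => 3 * i + c') x) = 0 := by
    replace hx := mem_Hn_words p x hx
    induction hx using Submodule.span_induction with
    | mem z h =>
      obtain ⟨w, hw, rfl⟩ := h
      rw [rel_wd, Rc_wd, if_neg]
      intro h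
      cases w with
      | nil => simp at hw; omega
      | cons a w =>
        have := h (3 * a.1 + c', a.2) (by simp)
        simp only at this
        omega
    | zero => simp
    | add x y _ _ h1 h2 => rw [map_add, map_add, h1, h2, add_zero]
    | smul c x _ h => rw [map_smul, map_smul, h, smul_zero]
  rw [this]
  simp

lemma ft_mem (c : ℕ) (f : F K →ₗ[K] K) {R : Submodule K (F K)} (hR : Kil K R)
    (hr : ∀ (r : ℕ → ℕ), ∀ x ∈ R, rel K r x ∈ R) {x : F K} (hx : x ∈ R) :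
    ∃ y ∈ R, ft K c f x = f y :=
  ⟨rel K (fun i => i / 3) (Rc K c x), hr _ _ (Rc_mem K hR c hx), ft_apply K c f x⟩

lemma rel_hn (p : ℕ) (r : ℕ → ℕ) {x : F K} (hx : x ∈ Hn K p) : rel K r x ∈ Hn K p := by
  replace hx := mem_Hn_words p x hx
  induction hx using Submodule.span_induction with
  | mem z h =>
    obtain ⟨w, hw, rfl⟩ := h
    intro v hv
    rw [rel_wd, c_wd, if_neg]
    rintro rfl
    rw [List.length_map] at hv
    exact hv hw
  | zero => rw [map_zero]; exact Submodule.zero_mem _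
  | add x y _ _ h1 h2 => rw [map_add]; exact Submodule.add_mem _ h1 h2
  | smul c x _ h => rw [map_smul]; exact Submodule.smul_mem _ _ h

/-- three functionals applied to the three blocks -/
noncomputable def Lam (p : ℕ) (f g h : F K →ₗ[K] K) : F K →ₗ[K] K :=
  h ∘ₗ Cm K p g ∘ₗ Cm K p f

lemma Lam_mul (p : ℕ) (f g h : F K →ₗ[K] K) {x y : F K} (z : F K) (hx : x ∈ Hn K p)
    (hy : y ∈ Hn K p) : Lam K p f g h (x * y * z) = f x * g y * h z := by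
  show h (Cm K p g (Cm K p f (x * y * z))) = _
  rw [mul_assoc, Cm_left K p f x hx, map_smul, Cm_left K p g y hy, map_smul, map_smul, smul_eq_mul,
    smul_eq_mul, mul_assoc]

lemma Lam_br (p : ℕ) (f g h : F K →ₗ[K] K) {x y z : F K} (hx : x ∈ Hn K p)
    (hy : y ∈ Hn K p) (hz : z ∈ Hn K p) :
    Lam K p f g h ((x * y - y * x) * z - z * (x * y - y * x)) =
      f x * g y * h z - f y * g x * h z - (f z * g x * h y - f z * g y * h x) := by
  have e : (x * y - y * x) * z - z * (x * y - y * x) =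
      x * y * z - y * x * z - (z * x * y - z * y * x) := by noncomm_ring
  rw [e, map_sub, map_sub, map_sub, Lam_mul K p f g h z hx hy, Lam_mul K p f g h z hy hx,
    Lam_mul K p f g h y hz hx, Lam_mul K p f g h x hz hy]

/-- the main inequality for triples -/
def EE (P1 P2 Q R1 R2 S : Submodule K (F K)) : Prop := ∀ f g h : F K →ₗ[K] K,
  (∀ a ∈ R1, ∀ b ∈ R2, ∀ s ∈ S, f a * g b * h s = 0 ∧ f b * g a * h s = 0) →
  ((∀ a ∈ R1, ∀ b ∈ R2, ∀ s ∈ S, f s * g a * h b = 0 ∧ f s * g b * h a = 0) ∨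
    (∀ a ∈ R1, ∀ b ∈ R2, ∀ s ∈ S, f a * g s * h b = 0 ∧ f b * g s * h a = 0)) →
  ∀ a ∈ P1, ∀ b ∈ P2, ∀ s ∈ Q, f a * g b * h s = 0

lemma ee_aux (p : ℕ) (hp : 1 ≤ p) (P1 P2 Q R1 R2 S : Submodule K (F K))
    (nP1 : P1 ≤ Hn K p) (nP2 : P2 ≤ Hn K p) (nQ : Q ≤ Hn K p)
    (nR1 : R1 ≤ Hn K p) (nR2 : R2 ≤ Hn K p) (nS : S ≤ Hn K p)
    (rP1 : ∀ (r : ℕ → ℕ), ∀ x ∈ P1, rel K r x ∈ P1) (rP2 : ∀ (r : ℕ → ℕ), ∀ x ∈ P2, rel K r x ∈ P2)
    (rQ : ∀ (r : ℕ → ℕ), ∀ x ∈ Q, rel K r x ∈ Q)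
    (rR1 : ∀ (r : ℕ → ℕ), ∀ x ∈ R1, rel K r x ∈ R1) (rR2 : ∀ (r : ℕ → ℕ), ∀ x ∈ R2, rel K r x ∈ R2)
    (rS : ∀ (r : ℕ → ℕ), ∀ x ∈ S, rel K r x ∈ S)
    (kR1 : Kil K R1) (kR2 : Kil K R2) (kS : Kil K S)
    (hle : br K (br K P1 P2) Q ≤ br K (br K R1 R2) S) (f g h : F K →ₗ[K] K)
    (h3 : ∀ a ∈ R1, ∀ b ∈ R2, ∀ s ∈ S, f a * g b * h s = 0 ∧ f b * g a * h s = 0)
    (h1 : ∀ a ∈ R1, ∀ b ∈ R2, ∀ s ∈ S, f s * g a * h b = 0 ∧ f s * g b * h a = 0) :
    ∀ a ∈ P1, ∀ b ∈ P2, ∀ s ∈ Q, f a * g b * h s = 0 := by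
  intro a ha b hb s hs
  set a' := rel K (fun i => 3 * i + 0) a with ea
  set b' := rel K (fun i => 3 * i + 1) b with eb
  set s' := rel K (fun i => 3 * i + 2) s with es
  have ha' : a' ∈ P1 := rP1 _ a ha
  have hb' : b' ∈ P2 := rP2 _ b hb
  have hs' : s' ∈ Q := rQ _ s hs
  set L := Lam K p (ft K 0 f) (ft K 1 g) (ft K 2 h) with hL
  have e1 : L ((a' * b' - b' * a') * s' - s' * (a' * b' - b' * a')) = f a * g b * h s := by
    rw [hL, Lam_br K p _ _ _ (nP1 ha') (nP2 hb') (nQ hs')]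
    rw [ea, eb, es, ft_same K 0 (by omega), ft_same K 1 (by omega), ft_same K 2 (by omega),
      ft_diff K 0 1 p (by omega) (by omega) (by omega) hp f b (nP2 hb),
      ft_diff K 0 2 p (by omega) (by omega) (by omega) hp f s (nQ hs)]
    ring
  have e2 : br K (br K R1 R2) S ≤ LinearMap.ker L := by
    refine Submodule.span_le.2 ?_
    rintro _ ⟨x, hx, t, ht, rfl⟩
    show L (x * t - t * x) = 0
    revert hx
    intro hx
    induction hx using Submodule.span_induction with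
    | mem z hz =>
      obtain ⟨c, hc, d, hd, rfl⟩ := hz
      rw [hL, Lam_br K p _ _ _ (nR1 hc) (nR2 hd) (nS ht)]
      obtain ⟨c0, hc0, ec0⟩ := ft_mem K 0 f kR1 rR1 hc
      obtain ⟨d0, hd0, ed0⟩ := ft_mem K 0 f kR2 rR2 hd
      obtain ⟨t0, ht0, et0⟩ := ft_mem K 0 f kS rS ht
      obtain ⟨c1, hc1, ec1⟩ := ft_mem K 1 g kR1 rR1 hc
      obtain ⟨d1, hd1, ed1⟩ := ft_mem K 1 g kR2 rR2 hd
      obtain ⟨c2, hc2, ec2⟩ := ft_mem K 2 h kR1 rR1 hc
      obtain ⟨d2, hd2, ed2⟩ := ft_mem K 2 h kR2 rR2 hd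
      obtain ⟨t2, ht2, et2⟩ := ft_mem K 2 h kS rS ht
      rw [ec0, ed0, et0, ec1, ed1, ec2, ed2, et2]
      rw [(h3 c0 hc0 d1 hd1 t2 ht2).1, (h3 c1 hc1 d0 hd0 t2 ht2).2, (h1 c1 hc1 d2 hd2 t0 ht0).1,
        (h1 c2 hc2 d1 hd1 t0 ht0).2]
      ring
    | zero => simp
    | add x y _ _ h1 h2 =>
      have : (x + y) * t - t * (x + y) = (x * t - t * x) + (y * t - t * y) := by noncomm_ring
      rw [this, map_add, h1, h2, add_zero]
    | smul c x _ h =>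
      have : (c • x) * t - t * (c • x) = c • (x * t - t * x) := by
        rw [smul_mul_assoc, mul_smul_comm, smul_sub]
      rw [this, map_smul, h, smul_zero]
  have e3 : (a' * b' - b' * a') * s' - s' * (a' * b' - b' * a') ∈ br K (br K P1 P2) Q :=
    Submodule.subset_span ⟨_, Submodule.subset_span ⟨a', ha', b', hb', rfl⟩, s', hs', rfl⟩
  rw [← e1]
  exact e2 (hle e3)

lemma ee_swapP {P1 P2 Q R1 R2 S : Submodule K (F K)} (E : EE K P1 P2 Q R1 R2 S) :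
    EE K P2 P1 Q R1 R2 S := by
  intro f g h h3 h12 a ha b hb s hs
  have := E g f h (fun c hc d hd t ht => ⟨by rw [mul_comm (g c)]; exact (h3 c hc d hd t ht).2,
    by rw [mul_comm (g d)]; exact (h3 c hc d hd t ht).1⟩) (by
      rcases h12 with h1 | h2
      · right
        intro c hc d hd t ht
        refine ⟨?_, ?_⟩
        · rw [mul_comm (g c)]; exact (h1 c hc d hd t ht).1
        · rw [mul_comm (g d)]; exact (h1 c hc d hd t ht).2
      · left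
        intro c hc d hd t ht
        refine ⟨?_, ?_⟩
        · rw [mul_comm (g t)]; exact (h2 c hc d hd t ht).1
        · rw [mul_comm (g t)]; exact (h2 c hc d hd t ht).2) b hb a ha s hs
  rw [mul_comm (f a)]; exact this

lemma ee_swapR {P1 P2 Q R1 R2 S : Submodule K (F K)} (E : EE K P1 P2 Q R1 R2 S) :
    EE K P1 P2 Q R2 R1 S := by
  intro f g h h3 h12
  refine E f g h (fun c hc d hd t ht => ⟨(h3 d hd c hc t ht).2, (h3 d hd c hc t ht).1⟩) ?_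
  rcases h12 with h1 | h2
  · exact Or.inl fun c hc d hd t ht => ⟨(h1 d hd c hc t ht).2, (h1 d hd c hc t ht).1⟩
  · exact Or.inr fun c hc d hd t ht => ⟨(h2 d hd c hc t ht).2, (h2 d hd c hc t ht).1⟩

lemma sepf (S : Submodule K (F K)) (x : F K) (h : x ∉ S) :
    ∃ f : F K →ₗ[K] K, f x ≠ 0 ∧ ∀ y ∈ S, f y = 0 := by
  obtain ⟨φ, h1, h2⟩ := Submodule.exists_dual_map_eq_bot_of_notMem h inferInstance
  refine ⟨φ, h1, fun x hx => ?_⟩
  have : φ x ∈ S.map φ := ⟨x, hx, rfl⟩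
  rw [h2] at this
  exact this

lemma nzf (x : F K) (h : x ≠ 0) : ∃ f : F K →ₗ[K] K, f x ≠ 0 := by
  obtain ⟨f, h1, -⟩ := sepf K ⊥ x (by simpa using h)
  exact ⟨f, h1⟩

lemma ee (p : ℕ) (hp : 1 ≤ p) (P1 P2 Q R1 R2 S : Submodule K (F K))
    (nP1 : P1 ≤ Hn K p) (nP2 : P2 ≤ Hn K p) (nQ : Q ≤ Hn K p)
    (nR1 : R1 ≤ Hn K p) (nR2 : R2 ≤ Hn K p) (nS : S ≤ Hn K p)
    (rP1 : ∀ (r : ℕ → ℕ), ∀ x ∈ P1, rel K r x ∈ P1) (rP2 : ∀ (r : ℕ → ℕ), ∀ x ∈ P2, rel K r x ∈ P2)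
    (rQ : ∀ (r : ℕ → ℕ), ∀ x ∈ Q, rel K r x ∈ Q)
    (rR1 : ∀ (r : ℕ → ℕ), ∀ x ∈ R1, rel K r x ∈ R1) (rR2 : ∀ (r : ℕ → ℕ), ∀ x ∈ R2, rel K r x ∈ R2)
    (rS : ∀ (r : ℕ → ℕ), ∀ x ∈ S, rel K r x ∈ S)
    (kR1 : Kil K R1) (kR2 : Kil K R2) (kS : Kil K S)
    (hle : br K (br K P1 P2) Q ≤ br K (br K R1 R2) S) : EE K P1 P2 Q R1 R2 S := by
  intro f g h h3 h12
  rcases h12 with h1 | h2
  · exact ee_aux K p hp P1 P2 Q R1 R2 S nP1 nP2 nQ nR1 nR2 nS rP1 rP2 rQ rR1 rR2 rS kR1 kR2 kS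
      hle f g h h3 h1
  · intro a ha b hb s hs
    have := ee_aux K p hp P2 P1 Q R1 R2 S nP2 nP1 nQ nR1 nR2 nS rP2 rP1 rQ rR1 rR2 rS kR1 kR2 kS
      (by rw [PairAux.brc K P2 P1]; exact hle) g f h
      (fun c hc d hd t ht => ⟨by rw [mul_comm (g c)]; exact (h3 c hc d hd t ht).2,
        by rw [mul_comm (g d)]; exact (h3 c hc d hd t ht).1⟩)
      (fun c hc d hd t ht => ⟨by rw [mul_comm (g t)]; exact (h2 c hc d hd t ht).1,
        by rw [mul_comm (g t)]; exact (h2 c hc d hd t ht).2⟩) b hb a ha s hs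
    rw [mul_comm (f a)]
    exact this

section ded
variable {P1 P2 Q R1 R2 S : Submodule K (F K)}

lemma d1 (E : EE K P1 P2 Q R1 R2 S) (n2 : ∃ x ∈ P2, x ≠ 0) (h : ¬ Q ≤ S) : P1 ≤ S := by
  intro a ha
  by_contra haS
  obtain ⟨s, hs, hsS⟩ := SetLike.not_le_iff_exists.1 h
  obtain ⟨b, hb, hb0⟩ := n2
  obtain ⟨f, f1, f2⟩ := sepf K S a haS
  obtain ⟨k, k1, k2⟩ := sepf K S s hsS
  obtain ⟨g, g1⟩ := nzf K b hb0
  have := E f g k (fun c hc d hd t ht => by rw [k2 t ht]; simp)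
    (Or.inl fun c hc d hd t ht => by rw [f2 t ht]; simp) a ha b hb s hs
  exact mul_ne_zero (mul_ne_zero f1 g1) k1 this

lemma d2 (E : EE K P1 P2 Q R1 R2 S) (n1 : ∃ x ∈ P1, x ≠ 0) (h : ¬ Q ≤ S) : P2 ≤ R1 ⊔ R2 := by
  intro b hb
  by_contra hbS
  obtain ⟨s, hs, hsS⟩ := SetLike.not_le_iff_exists.1 h
  obtain ⟨a, ha, ha0⟩ := n1
  obtain ⟨g, g1, g2⟩ := sepf K _ b hbS
  obtain ⟨k, k1, k2⟩ := sepf K S s hsS
  obtain ⟨f, f1⟩ := nzf K a ha0
  have := E f g k (fun c hc d hd t ht => by rw [k2 t ht]; simp)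
    (Or.inl fun c hc d hd t ht => by
      rw [g2 c (Submodule.mem_sup_left hc), g2 d (Submodule.mem_sup_right hd)]; simp) a ha b hb s hs
  exact mul_ne_zero (mul_ne_zero f1 g1) k1 this

lemma d3 (E : EE K P1 P2 Q R1 R2 S) (n1 : ∃ x ∈ P1, x ≠ 0) (n2 : ∃ x ∈ P2, x ≠ 0) :
    Q ≤ S ⊔ (R1 ⊔ R2) := by
  intro s hs
  by_contra hsS
  obtain ⟨a, ha, ha0⟩ := n1
  obtain ⟨b, hb, hb0⟩ := n2
  obtain ⟨k, k1, k2⟩ := sepf K _ s hsS
  obtain ⟨f, f1⟩ := nzf K a ha0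
  obtain ⟨g, g1⟩ := nzf K b hb0
  have := E f g k (fun c hc d hd t ht => by rw [k2 t (Submodule.mem_sup_left ht)]; simp)
    (Or.inl fun c hc d hd t ht => by
      rw [k2 c (Submodule.mem_sup_right (Submodule.mem_sup_left hc)),
        k2 d (Submodule.mem_sup_right (Submodule.mem_sup_right hd))]; simp) a ha b hb s hs
  exact mul_ne_zero (mul_ne_zero f1 g1) k1 this

/-- if `R1, R2` are in `S`, then `P1` is in `S` -/
lemma d4 (E : EE K P1 P2 Q R1 R2 S) (T : Submodule K (F K)) (n2 : ∃ x ∈ P2, x ≠ 0)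
    (n3 : ∃ x ∈ Q, x ≠ 0) (h1 : R1 ≤ T) (h2 : R2 ≤ T) : P1 ≤ T := by
  intro a ha
  by_contra haS
  obtain ⟨b, hb, hb0⟩ := n2
  obtain ⟨s, hs, hs0⟩ := n3
  obtain ⟨f, f1, f2⟩ := sepf K T a haS
  obtain ⟨g, g1⟩ := nzf K b hb0
  obtain ⟨k, k1⟩ := nzf K s hs0
  have := E f g k (fun c hc d hd t ht => by rw [f2 c (h1 hc), f2 d (h2 hd)]; simp)
    (Or.inr fun c hc d hd t ht => by rw [f2 c (h1 hc), f2 d (h2 hd)]; simp) a ha b hb s hs
  exact mul_ne_zero (mul_ne_zero f1 g1) k1 this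

/-- the last factor -/
lemma d5 (E : EE K P1 P2 Q R1 R2 S) (E' : EE K R1 R2 S P1 P2 Q) (n1 : ∃ x ∈ P1, x ≠ 0)
    (n2 : ∃ x ∈ P2, x ≠ 0) (n4 : ∃ x ∈ R1, x ≠ 0) (n5 : ∃ x ∈ R2, x ≠ 0) (n6 : ∃ x ∈ S, x ≠ 0) :
    Q ≤ S := by
  by_contra h
  have p1 := d1 K E n2 h
  have p2 := d1 K (ee_swapP K E) n1 h
  have r1 := d4 K E' S n5 n6 p1 p2
  have r2 := d4 K (ee_swapP K E') S n4 n6 p1 p2
  exact h ((d3 K E n1 n2).trans (sup_le le_rfl (sup_le r1 r2)))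

/-- one of the factors -/
lemma d6 (E : EE K P1 P2 Q R1 R2 Q) (n3 : ∃ x ∈ Q, x ≠ 0) : P1 ≤ R1 ∨ P2 ≤ R1 := by
  by_contra hc
  push Not at hc
  obtain ⟨h1, h2⟩ := hc
  obtain ⟨a, ha, haR⟩ := SetLike.not_le_iff_exists.1 h1
  obtain ⟨b, hb, hbR⟩ := SetLike.not_le_iff_exists.1 h2
  obtain ⟨f, f1, f2⟩ := sepf K _ a haR
  obtain ⟨g, g1, g2⟩ := sepf K _ b hbR
  by_cases hf : ∃ s ∈ Q, f s ≠ 0
  · obtain ⟨s, hs, hfs⟩ := hf
    have := E f g f (fun c hc d hd t ht => by rw [f2 c hc, g2 c hc]; simp)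
      (Or.inr fun c hc d hd t ht => by rw [f2 c hc]; simp) a ha b hb s hs
    exact mul_ne_zero (mul_ne_zero f1 g1) hfs this
  · push Not at hf
    obtain ⟨s, hs, hs0⟩ := n3
    obtain ⟨k, k1⟩ := nzf K s hs0
    have := E f g k (fun c hc d hd t ht => by rw [f2 c hc, g2 c hc]; simp)
      (Or.inl fun c hc d hd t ht => by rw [hf t ht]; simp) a ha b hb s hs
    exact mul_ne_zero (mul_ne_zero f1 g1) k1 this

/-- **Triples.** -/
theorem tri (E : EE K P1 P2 Q R1 R2 S) (E' : EE K R1 R2 S P1 P2 Q) (n1 : ∃ x ∈ P1, x ≠ 0)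
    (n2 : ∃ x ∈ P2, x ≠ 0) (n3 : ∃ x ∈ Q, x ≠ 0) (n4 : ∃ x ∈ R1, x ≠ 0) (n5 : ∃ x ∈ R2, x ≠ 0)
    (n6 : ∃ x ∈ S, x ≠ 0) : ((P1 = R1 ∧ P2 = R2) ∨ (P1 = R2 ∧ P2 = R1)) ∧ Q = S := by
  have hQ : Q = S := le_antisymm (d5 K E E' n1 n2 n4 n5 n6) (d5 K E' E n4 n5 n1 n2 n3)
  subst hQ
  refine ⟨PairAux.latt (d6 K E n3) (d6 K (ee_swapR K E) n3) (d6 K E' n3) (d6 K (ee_swapR K E') n3)
    ?_ ?_ ?_ ?_, rfl⟩
  · exact d4 K E _ n2 n3 le_sup_left le_sup_right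
  · exact d4 K (ee_swapP K E) _ n1 n3 le_sup_left le_sup_right
  · exact d4 K E' _ n5 n3 le_sup_left le_sup_right
  · exact d4 K (ee_swapP K E') _ n4 n3 le_sup_left le_sup_right

end ded

end Pool.Agent.Helper28.BX
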