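import Pool.Agent.Helper28.BX.Root

/-! Primitive elements in the right ideal generated by two spaces of primitive elements. -/

set_option linter.all false
universe u
namespace Pool.Agent.Helper28.BX

open Pool.Agent.Results.MP_5ecbac_al
open ThreeCherries ThreeCherries.Br Skeleton
open Pool.Agent.R325.BH
open scoped TensorProduct

attribute [local instance 100] LieRing.ofAssociativeRing

variable (K : Type u) [Field K]

/-- supported on words of length `a` and weight `d` -/
def G (a d : ℕ) (x : F K) : Prop := ∀ w : Wd, ¬ (w.length = a ∧ wt w = d) → cf x w = 0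

lemma G.hn {a d : ℕ} {x : F K} (h : G K a d x) : x ∈ Hn K a := fun w hw => h w (fun h' => hw h'.1)

lemma wt_append (u v : Wd) : wt (u ++ v) = wt u + wt v := by
  simp [wt]

/-- projection to a set of words -/
noncomputable def Pj (p : Wd → Prop) [DecidablePred p] : F K →ₗ[K] F K :=
  (Finsupp.linearCombination K (fun m : FreeMonoid (ℕ × ℕ) =>
    if p (FreeMonoid.toList m) then wd K (FreeMonoid.toList m) else 0)) ∘ₗ
    (MonoidAlgebra.coeffLinearEquiv K).toLinearMap

lemma Pj_wd (p : Wd → Prop) [DecidablePred p] (w : Wd) :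
    Pj K p (wd K w) = if p w then wd K w else 0 := by
  unfold Pj
  simp only [LinearMap.coe_comp, LinearEquiv.coe_coe, Function.comp_apply]
  have h : (MonoidAlgebra.coeffLinearEquiv K) (wd K w) =
      Finsupp.single (FreeMonoid.ofList w) (1 : K) := rfl
  rw [h, Finsupp.linearCombination_single, one_smul, FreeMonoid.toList_ofList]

lemma Pj_mul (p p' : Wd → Prop) [DecidablePred p] [DecidablePred p'] (b d : ℕ)
    (hpp : ∀ u v : Wd, u.length = b → wt u = d → (p (u ++ v) ↔ p' v)) (s : F K) (hs : G K b d s)
    (g : F K) : Pj K p (s * g) = s * Pj K p' g := by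
  replace hs := mem_words (fun w => w.length = b ∧ wt w = d) s hs
  induction hs using Submodule.span_induction with
  | mem z h =>
    obtain ⟨w, ⟨hw, hw2⟩, rfl⟩ := h
    induction g using word_ind K with
    | h0 => simp
    | ha a b h1 h2 => rw [mul_add, map_add, map_add, mul_add, h1, h2]
    | hs c a h => rw [mul_smul_comm, map_smul, map_smul, h, mul_smul_comm]
    | hw v =>
      rw [← wd_mul, Pj_wd, Pj_wd]
      by_cases hv : p' v
      · rw [if_pos hv, if_pos ((hpp w v hw hw2).2 hv), wd_mul]
      · rw [if_neg hv, if_neg (fun h => hv ((hpp w v hw hw2).1 h)), mul_zero]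
  | zero => simp
  | add x y _ _ h1 h2 => rw [add_mul, map_add, h1, h2, add_mul]
  | smul c x _ h => rw [smul_mul_assoc, map_smul, h, smul_mul_assoc]

/-- projection of the right ideal -/
lemma Pj_RI (b d q e : ℕ) (S : Submodule K (F K)) (hS : ∀ s ∈ S, G K b d s) :
    ∀ z ∈ RI K S, Pj K (fun w => w.length = q ∧ wt w = e) z ∈ RI K S := by
  intro z hz
  induction hz using Submodule.span_induction with
  | mem z h =>
    obtain ⟨s, hs, g, rfl⟩ := h
    rw [Pj_mul K (fun w => w.length = q ∧ wt w = e) (fun v => b + v.length = q ∧ d + wt v = e) b d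
      (fun u v hu hv => by rw [List.length_append, wt_append, hu, hv]) s (hS s hs) g]
    exact Submodule.subset_span ⟨s, hs, _, rfl⟩
  | zero => rw [map_zero]; exact Submodule.zero_mem _
  | add x y _ _ h1 h2 => rw [map_add]; exact Submodule.add_mem _ h1 h2
  | smul c x _ h => rw [map_smul]; exact Submodule.smul_mem _ _ h

lemma Pj_self (q e : ℕ) (x : F K) (hx : G K q e x) :
    Pj K (fun w => w.length = q ∧ wt w = e) x = x := by
  replace hx := mem_words (fun w => w.length = q ∧ wt w = e) x hx
  induction hx using Submodule.span_induction with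
  | mem z h =>
    obtain ⟨w, hw, rfl⟩ := h
    rw [Pj_wd, if_pos hw]
  | zero => simp
  | add x y _ _ h1 h2 => rw [map_add, h1, h2]
  | smul c x _ h => rw [map_smul, h]

/-- apply a functional to the first `q` letters -/
noncomputable def Cm (q : ℕ) (mu : F K →ₗ[K] K) : F K →ₗ[K] F K :=
  (Finsupp.linearCombination K (fun m : FreeMonoid (ℕ × ℕ) =>
    mu (wd K ((FreeMonoid.toList m).take q)) • wd K ((FreeMonoid.toList m).drop q))) ∘ₗ
    (MonoidAlgebra.coeffLinearEquiv K).toLinearMap

lemma Cm_wd (q : ℕ) (mu : F K →ₗ[K] K) (w : Wd) :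
    Cm K q mu (wd K w) = mu (wd K (w.take q)) • wd K (w.drop q) := by
  unfold Cm
  simp only [LinearMap.coe_comp, LinearEquiv.coe_coe, Function.comp_apply]
  have h : (MonoidAlgebra.coeffLinearEquiv K) (wd K w) =
      Finsupp.single (FreeMonoid.ofList w) (1 : K) := rfl
  rw [h, Finsupp.linearCombination_single, one_smul, FreeMonoid.toList_ofList]

lemma Cm_left (q : ℕ) (mu : F K →ₗ[K] K) (s : F K) (hs : s ∈ Hn K q) (g : F K) :
    Cm K q mu (s * g) = mu s • g := by
  replace hs := mem_Hn_words q s hs
  induction hs using Submodule.span_induction with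
  | mem z h =>
    obtain ⟨w, hw, rfl⟩ := h
    induction g using word_ind K with
    | h0 => simp
    | ha a b h1 h2 => rw [mul_add, map_add, smul_add, h1, h2]
    | hs c a h => rw [mul_smul_comm, map_smul, h, smul_comm]
    | hw v => rw [← wd_mul, Cm_wd, List.take_left' hw, List.drop_left' hw]
  | zero => simp
  | add x y _ _ h1 h2 => rw [add_mul, map_add, h1, h2, map_add, add_smul]
  | smul c x _ h => rw [smul_mul_assoc, map_smul, h, map_smul, smul_assoc]

lemma Cm_short (b q : ℕ) (hbq : b ≤ q) (mu : F K →ₗ[K] K) (s : F K) (hs : s ∈ Hn K b) (v : Wd) :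
    Cm K q mu (s * wd K v) = mu (s * wd K (v.take (q - b))) • wd K (v.drop (q - b)) := by
  replace hs := mem_Hn_words b s hs
  induction hs using Submodule.span_induction with
  | mem z h =>
    obtain ⟨w, hw, rfl⟩ := h
    rw [← wd_mul, ← wd_mul, Cm_wd]
    have e1 : (w ++ v).drop q = v.drop (q - b) := by
      rw [List.drop_append, List.drop_eq_nil_of_le (by omega), List.nil_append, hw]
    have e2 : (w ++ v).take q = w ++ v.take (q - b) := by
      rw [List.take_append, List.take_of_length_le (by omega), hw]
    rw [e1, e2]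
  | zero => simp
  | add x y _ _ h1 h2 => rw [add_mul, map_add, h1, h2, add_mul, map_add, add_smul]
  | smul c x _ h => rw [smul_mul_assoc, map_smul, h, smul_mul_assoc, map_smul, smul_assoc]

lemma Cm_RI (b q : ℕ) (hbq : b ≤ q) (mu : F K →ₗ[K] K) (S : Submodule K (F K)) (hS : S ≤ Hn K b)
    (h0 : ∀ z ∈ RI K S, mu z = 0) : ∀ z ∈ RI K S, Cm K q mu z = 0 := by
  intro z hz
  induction hz using Submodule.span_induction with
  | mem z h =>
    obtain ⟨s, hs, g, rfl⟩ := h
    induction g using word_ind K with
    | h0 => simp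
    | ha a b h1 h2 => rw [mul_add, map_add, h1, h2, add_zero]
    | hs c a h => rw [mul_smul_comm, map_smul, h, smul_zero]
    | hw v =>
      rw [Cm_short K b q hbq mu s (hS hs) v, h0 _ (Submodule.subset_span ⟨s, hs, _, rfl⟩), zero_smul]
  | zero => simp
  | add x y _ _ h1 h2 => rw [map_add, h1, h2, add_zero]
  | smul c x _ h => rw [map_smul, h, smul_zero]

lemma RI_mulr (S : Submodule K (F K)) (g : F K) : ∀ z ∈ RI K S, z * g ∈ RI K S := by
  intro z hz
  induction hz using Submodule.span_induction with
  | mem z h =>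
    obtain ⟨s, hs, f, rfl⟩ := h
    rw [mul_assoc]
    exact Submodule.subset_span ⟨s, hs, _, rfl⟩
  | zero => rw [zero_mul]; exact Submodule.zero_mem _
  | add x y _ _ h1 h2 => rw [add_mul]; exact Submodule.add_mem _ h1 h2
  | smul c x _ h => rw [smul_mul_assoc]; exact Submodule.smul_mem _ _ h

lemma RI_pre (b d : ℕ) (S : Submodule K (F K)) (hS : ∀ s ∈ S, G K b d s) :
    ∀ z ∈ RI K S, ∀ w : Wd, cf z w ≠ 0 → b ≤ w.length ∧ wt (w.take b) = d := by
  intro z hz w
  induction hz using Submodule.span_induction with
  | mem z h =>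
    obtain ⟨s, hs, g, rfl⟩ := h
    intro hne
    obtain ⟨w1, w2, h1, h2, -⟩ := FSTaux.cf_mul_ne _ _ _ hne
    have h3 : w1.length = b ∧ wt w1 = d := by
      by_contra hc
      exact h2 (hS s hs _ hc)
    rw [h1, List.length_append, List.take_left' h3.1]
    exact ⟨by omega, h3.2⟩
  | zero => intro h; exact absurd (c_zero w) h
  | add x y _ _ h1 h2 =>
    intro h
    by_cases hx : cf x w = 0
    · by_cases hy : cf y w = 0
      · rw [c_add, hx, hy, add_zero] at h; exact absurd rfl h
      · exact h2 hy
    · exact h1 hx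
  | smul c x _ h =>
    intro h'
    apply h
    intro h0
    rw [c_smul, h0, mul_zero] at h'
    exact h' rfl

/-- an element of `RI S` is the product of a tensor -/
lemma RI_tensor (S : Submodule K (F K)) : ∀ z ∈ RI K S, ∃ X : S ⊗[K] F K,
    z = LinearMap.mul' K (F K) (LinearMap.rTensor (F K) S.subtype X) := by
  intro z hz
  induction hz using Submodule.span_induction with
  | mem z h =>
    obtain ⟨s, hs, g, rfl⟩ := h
    exact ⟨⟨s, hs⟩ ⊗ₜ g, by simp⟩
  | zero => exact ⟨0, by simp⟩
  | add x y _ _ h1 h2 =>
    obtain ⟨X, rfl⟩ := h1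
    obtain ⟨Y, rfl⟩ := h2
    exact ⟨X + Y, by simp⟩
  | smul c x _ h =>
    obtain ⟨X, rfl⟩ := h
    exact ⟨c • X, by simp⟩

/-- functionals in the first factor separate tensors -/
lemma sep_left {V W : Type u} [AddCommGroup V] [Module K V] [AddCommGroup W] [Module K W]
    (X : V ⊗[K] W)
    (h : ∀ nu : V →ₗ[K] K, TensorProduct.lid K W (LinearMap.rTensor W nu X) = 0) : X = 0 := by
  classical
  obtain ⟨ι, ⟨b⟩⟩ := Module.Basis.exists_basis K V
  apply (TensorProduct.equivFinsuppOfBasisLeft b (N := W)).injective
  rw [map_zero]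
  ext i
  have h1 : ∀ X : V ⊗[K] W, TensorProduct.equivFinsuppOfBasisLeft b X i =
      TensorProduct.lid K W (LinearMap.rTensor W (b.coord i) X) := by
    intro X
    induction X using TensorProduct.induction_on with
    | zero => simp
    | tmul x y =>
      rw [TensorProduct.equivFinsuppOfBasisLeft_apply_tmul_apply, LinearMap.rTensor_tmul,
        TensorProduct.lid_tmul, Module.Basis.coord_apply]
    | add x y hx hy => simp only [map_add, Finsupp.add_apply, hx, hy]
  rw [h1, h]
  rfl

/-- functionals in the second factor separate tensors -/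
lemma sep_right {V W : Type u} [AddCommGroup V] [Module K V] [AddCommGroup W] [Module K W]
    (X : V ⊗[K] W)
    (h : ∀ nu : W →ₗ[K] K, TensorProduct.rid K V (LinearMap.lTensor V nu X) = 0) : X = 0 := by
  classical
  obtain ⟨ι, ⟨b⟩⟩ := Module.Basis.exists_basis K W
  apply (TensorProduct.equivFinsuppOfBasisRight b (M := V)).injective
  rw [map_zero]
  ext i
  have h1 : ∀ X : V ⊗[K] W, TensorProduct.equivFinsuppOfBasisRight b X i =
      TensorProduct.rid K V (LinearMap.lTensor V (b.coord i) X) := by
    intro X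
    induction X using TensorProduct.induction_on with
    | zero => simp
    | tmul x y =>
      rw [TensorProduct.equivFinsuppOfBasisRight_apply_tmul_apply, LinearMap.lTensor_tmul,
        TensorProduct.rid_tmul, Module.Basis.coord_apply]
    | add x y hx hy => simp only [map_add, Finsupp.add_apply, hx, hy]
  rw [h1, h]
  rfl

/-- if all contractions vanish, the element is in the first ideal -/
lemma in_first (b q d e : ℕ) (S1 S2 : Submodule K (F K)) (hS1 : ∀ s ∈ S1, G K b d s)
    (hS2 : ∀ s ∈ S2, G K q e s) (f : F K) (hf : f ∈ RI K S2)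
    (h : ∀ nu : F K →ₗ[K] K, (∀ z ∈ RI K S1, nu z = 0) →
      Cm K q (nu ∘ₗ Pj K (fun w => w.length = q ∧ wt w = e)) f = 0) : f ∈ RI K S1 := by
  obtain ⟨X, rfl⟩ := RI_tensor K S2 f hf
  have h1 : ∀ nu : F K →ₗ[K] K, ∀ X : S2 ⊗[K] F K,
      Cm K q (nu ∘ₗ Pj K (fun w => w.length = q ∧ wt w = e))
        (LinearMap.mul' K (F K) (LinearMap.rTensor (F K) S2.subtype X)) =
      TensorProduct.lid K (F K) (LinearMap.rTensor (F K) (nu ∘ₗ S2.subtype) X) := by
    intro nu X
    induction X using TensorProduct.induction_on with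
    | zero => simp
    | tmul s g =>
      rw [LinearMap.rTensor_tmul, LinearMap.mul'_apply, LinearMap.rTensor_tmul,
        TensorProduct.lid_tmul]
      have hs := hS2 s.1 s.2
      rw [show S2.subtype s = s.1 from rfl, Cm_left K q _ _ (hs.hn) g]
      rw [LinearMap.comp_apply, Pj_self K q e _ hs]
      rfl
    | add x y hx hy => simp only [map_add, hx, hy]
  have h2 : LinearMap.rTensor (F K) (RI K S1).mkQ (LinearMap.rTensor (F K) S2.subtype X) = 0 := by
    apply sep_left
    intro nu
    have h3 := h (nu ∘ₗ (RI K S1).mkQ) (fun z hz => by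
      rw [LinearMap.comp_apply, Submodule.mkQ_apply, (Submodule.Quotient.mk_eq_zero _).2 hz,
        map_zero])
    rw [h1] at h3
    rw [← LinearMap.rTensor_comp_apply, ← LinearMap.rTensor_comp_apply]
    exact h3
  have hex : Function.Exact (RI K S1).subtype (RI K S1).mkQ := by
    rw [LinearMap.exact_iff]
    simp
  have h4 := (rTensor_exact (F K) hex (Submodule.mkQ_surjective _) _).1 h2
  obtain ⟨Z, hZ⟩ := h4
  rw [← hZ]
  clear hZ h2 h1 h hf
  induction Z using TensorProduct.induction_on with
  | zero => simp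
  | tmul s g =>
    rw [LinearMap.rTensor_tmul, LinearMap.mul'_apply]
    exact RI_mulr K S1 g _ s.2
  | add x y hx hy =>
    rw [map_add, map_add]
    exact Submodule.add_mem _ hx hy

/-- the degrees of elements which satisfy the contraction condition -/
theorem two (b q d e : ℕ) (hb : 1 ≤ b) (hbq : b ≤ q) (S1 S2 : Submodule K (F K))
    (hS1 : ∀ s ∈ S1, G K b d s) (hS2 : ∀ s ∈ S2, G K q e s) (hp1 : ∀ s ∈ S1, Prim K s)
    (hp2 : ∀ s ∈ S2, Prim K s) : ∀ (a c : ℕ) (f : F K), G K a c f → f ≠ 0 →
    (∀ lam : F K →ₗ[K] K, (∀ z ∈ RI K S1 ⊔ RI K S2, lam z = 0) → Dm K lam f = lam 1 • f) →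
    ∃ i j : ℕ, a = i * b + j * q ∧ c = i * d + j * e := by
  intro a
  induction a using Nat.strong_induction_on with
  | _ a ih =>
  intro c f hf hf0 h
  have S1n : S1 ≤ Hn K b := fun s hs => (hS1 s hs).hn
  have S2n : S2 ≤ Hn K q := fun s hs => (hS2 s hs).hn
  have hw0 : ∃ w : Wd, cf f w ≠ 0 := by
    by_contra hc
    push Not at hc
    exact hf0 (ext_cf _ _ (fun w => by rw [hc, c_zero]))
  rcases Nat.eq_zero_or_pos a with ha0 | ha1
  · subst ha0
    obtain ⟨w, hw⟩ := hw0
    have h1 : w.length = 0 ∧ wt w = c := by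
      by_contra hc
      exact hw (hf w hc)
    have h2 : w = [] := List.length_eq_zero_iff.1 h1.1
    rw [h2] at h1
    exact ⟨0, 0, by simp, by simpa [wt] using h1.2.symm⟩
  have hmem : f ∈ RI K S1 ⊔ RI K S2 := by
    by_contra hc
    obtain ⟨lam, h1, h2⟩ := Submodule.exists_dual_map_eq_bot_of_notMem hc inferInstance
    have h3 : ∀ z ∈ RI K S1 ⊔ RI K S2, lam z = 0 := by
      intro z hz
      have : lam z ∈ (RI K S1 ⊔ RI K S2).map lam := Submodule.mem_map_of_mem hz
      rw [h2] at this
      exact (Submodule.mem_bot K).1 this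
    apply h1
    have h4 := congrArg (eps K) (h lam h3)
    rw [eps_Dm, map_smul, eps_Hn K a ha1 f hf.hn, smul_zero] at h4
    exact h4
  by_cases hA : ∃ nu : F K →ₗ[K] K, (∀ z ∈ RI K S1, nu z = 0) ∧
      Cm K q (nu ∘ₗ Pj K (fun w => w.length = q ∧ wt w = e)) f ≠ 0
  · obtain ⟨nu, hnu, hne⟩ := hA
    set mu := nu ∘ₗ Pj K (fun w => w.length = q ∧ wt w = e) with hmu
    have hmu0 : ∀ z ∈ RI K S1, mu z = 0 := fun z hz => by
      rw [hmu, LinearMap.comp_apply]
      exact hnu _ (Pj_RI K b d q e S1 hS1 z hz)
    have hmuw : ∀ w : Wd, ¬ (w.length = q ∧ wt w = e) → mu (wd K w) = 0 := fun w hw => by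
      rw [hmu, LinearMap.comp_apply, Pj_wd, if_neg hw, map_zero]
    -- words of the contraction
    have hC : ∀ v : Wd, cf (Cm K q mu f) v ≠ 0 →
        q + v.length = a ∧ e + wt v = c := by
      intro v
      have hf' := mem_words (fun w => w.length = a ∧ wt w = c) f hf
      clear_value mu
      clear hne h hmem hw0 hf hf0
      induction hf' using Submodule.span_induction with
      | mem z hz =>
        obtain ⟨w, hw, rfl⟩ := hz
        rw [Cm_wd, c_smul, c_wd]
        intro hne
        have h5 : w.drop q = v := by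
          by_contra hc
          rw [if_neg hc, mul_zero] at hne
          exact hne rfl
        have h6 : (w.take q).length = q ∧ wt (w.take q) = e := by
          by_contra hc
          rw [hmuw _ hc, zero_mul] at hne
          exact hne rfl
        have h7 : w = w.take q ++ v := by rw [← h5, List.take_append_drop]
        have h8 : w.length = q + v.length := by
          conv_lhs => rw [h7]
          rw [List.length_append, h6.1]
        have h9 : wt w = e + wt v := by
          conv_lhs => rw [h7]
          rw [wt_append, h6.2]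
        exact ⟨by rw [← h8]; exact hw.1, by rw [← h9]; exact hw.2⟩
      | zero => intro h; rw [map_zero] at h; exact absurd (c_zero v) h
      | add x y _ _ h1 h2 =>
        intro h
        by_cases hx : cf (Cm K q mu x) v = 0
        · by_cases hy : cf (Cm K q mu y) v = 0
          · rw [map_add, c_add, hx, hy, add_zero] at h; exact absurd rfl h
          · exact h2 hy
        · exact h1 hx
      | smul c' x _ h =>
        intro h'
        apply h
        intro h0
        rw [map_smul, c_smul, h0, mul_zero] at h'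
        exact h' rfl
    obtain ⟨v0, hv0⟩ : ∃ v : Wd, cf (Cm K q mu f) v ≠ 0 := by
      by_contra hc
      push Not at hc
      exact hne (ext_cf _ _ (fun w => by rw [hc, c_zero]))
    have h10 := hC v0 hv0
    obtain ⟨i, j, h11, h12⟩ := ih (a - q) (by omega) (c - e) (Cm K q mu f) (by
      intro w hw
      by_contra hne'
      have := hC w hne'
      exact hw ⟨by omega, by omega⟩) hne (by
      intro lam hlam
      have comm : ∀ z ∈ RI K S1 ⊔ RI K S2, Dm K lam (Cm K q mu z) = Cm K q mu (Dm K lam z) := by
        intro z hz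
        obtain ⟨z1, hz1, z2, hz2, rfl⟩ := Submodule.mem_sup.1 hz
        have hl1 : ∀ z ∈ RI K S1, lam z = 0 := fun z hz => hlam z (Submodule.mem_sup_left hz)
        have hl2 : ∀ z ∈ RI K S2, lam z = 0 := fun z hz => hlam z (Submodule.mem_sup_right hz)
        have k1 : Dm K lam (Cm K q mu z1) = Cm K q mu (Dm K lam z1) := by
          rw [Cm_RI K b q hbq mu S1 S1n hmu0 z1 hz1, map_zero]
          symm
          apply Cm_RI K b q hbq mu S1 S1n hmu0
          induction hz1 using Submodule.span_induction with
          | mem z h =>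
            obtain ⟨s, hs, g, rfl⟩ := h
            rw [Dm_mul K lam (hp1 s hs) (fun g => hl1 _ (Submodule.subset_span ⟨s, hs, g, rfl⟩))]
            exact Submodule.subset_span ⟨s, hs, _, rfl⟩
          | zero => rw [map_zero]; exact Submodule.zero_mem _
          | add x y _ _ h1 h2 =>
            rw [map_add]
            refine Submodule.add_mem _ (h1 ?_) (h2 ?_)
            · exact Submodule.add_mem _ (Submodule.mem_sup_left ‹_›) (Submodule.mem_sup_right hz2)
            · exact Submodule.add_mem _ (Submodule.mem_sup_left ‹_›) (Submodule.mem_sup_right hz2)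
          | smul c x hx h =>
            rw [map_smul]
            exact Submodule.smul_mem _ _ (h (Submodule.add_mem _ (Submodule.mem_sup_left hx)
              (Submodule.mem_sup_right hz2)))
        have k2 : Dm K lam (Cm K q mu z2) = Cm K q mu (Dm K lam z2) := by
          clear hz k1
          induction hz2 using Submodule.span_induction with
          | mem z h =>
            obtain ⟨s, hs, g, rfl⟩ := h
            rw [Cm_left K q mu s (S2n hs) g, Dm_mul K lam (hp2 s hs)
              (fun g => hl2 _ (Submodule.subset_span ⟨s, hs, g, rfl⟩)),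
              Cm_left K q mu s (S2n hs), map_smul]
          | zero => simp
          | add x y _ _ h1 h2 => rw [map_add, map_add, map_add, map_add, h1, h2]
          | smul c x hx h => rw [map_smul, map_smul, map_smul, map_smul, h]
        rw [map_add, map_add, map_add, map_add, k1, k2]
      rw [comm f hmem, h lam hlam, map_smul])
    refine ⟨i, j + 1, ?_, ?_⟩
    · rw [add_mul, one_mul, ← add_assoc, ← h11]; omega
    · rw [add_mul, one_mul, ← add_assoc, ← h12]; omega
  · push Not at hA
    have hf1 : f ∈ RI K S1 := by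
      obtain ⟨f1, hf1, f2, hf2, hff⟩ := Submodule.mem_sup.1 hmem
      have hf2' : f2 ∈ RI K S1 := by
        apply in_first K b q d e S1 S2 hS1 hS2 f2 hf2
        intro nu hnu
        have h1 := hA nu hnu
        have h2 := Cm_RI K b q hbq (nu ∘ₗ Pj K (fun w => w.length = q ∧ wt w = e)) S1 S1n
          (fun z hz => by
            rw [LinearMap.comp_apply]
            exact hnu _ (Pj_RI K b d q e S1 hS1 z hz)) f1 hf1
        rw [← hff, map_add, h2, zero_add] at h1
        exact h1
      rw [← hff]
      exact Submodule.add_mem _ hf1 hf2'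
    obtain ⟨w, hw⟩ := hw0
    have h1 : w.length = a ∧ wt w = c := by
      by_contra hc
      exact hw (hf w hc)
    have h2 := RI_pre K b d S1 hS1 f hf1 w hw
    have hl : (w.take b).length = b := by rw [List.length_take]; omega
    have hwt : wt w = d + wt (w.drop b) := by
      conv_lhs => rw [← List.take_append_drop b w]
      rw [wt_append, h2.2]
    obtain ⟨i, j, h11, h12⟩ := ih (a - b) (by omega) (c - d) (Cw K (w.take b) f) (by
      intro u hu
      rw [cf_Cw]
      apply hf
      rintro ⟨h3, h4⟩
      rw [List.length_append, hl] at h3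
      rw [wt_append, h2.2] at h4
      exact hu ⟨by omega, by omega⟩) (by
      intro h0
      have := cf_Cw K (w.take b) (w.drop b) f
      rw [h0, c_zero, List.take_append_drop] at this
      exact hw this.symm) (by
      intro lam hlam
      rw [Dm_Cw K lam b _ hl S1 S1n hp1 (fun z hz => hlam z (Submodule.mem_sup_left hz)) f hf1,
        h lam hlam, map_smul])
    refine ⟨i + 1, j, ?_, ?_⟩
    · rw [add_mul, one_mul]; omega
    · rw [add_mul, one_mul]; omega

/-- primitive elements in the right ideal generated by two spaces -/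
theorem two_prim (b q d e : ℕ) (hb : 1 ≤ b) (hq : 1 ≤ q) (S1 S2 : Submodule K (F K))
    (hS1 : ∀ s ∈ S1, G K b d s) (hS2 : ∀ s ∈ S2, G K q e s) (hp1 : ∀ s ∈ S1, Prim K s)
    (hp2 : ∀ s ∈ S2, Prim K s) (a c : ℕ) (f : F K) (hf : G K a c f) (hf0 : f ≠ 0)
    (hfp : Prim K f) (hm : f ∈ RI K S1 ⊔ RI K S2) :
    ∃ i j : ℕ, a = i * b + j * q ∧ c = i * d + j * e := by
  rcases Nat.le_total b q with hbq | hbq
  · apply two K b q d e hb hbq S1 S2 hS1 hS2 hp1 hp2 a c f hf hf0
    intro lam hlam
    rw [Dm_prim K lam hfp, hlam f hm, zero_smul, zero_add]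
  · rw [sup_comm] at hm
    obtain ⟨i, j, h1, h2⟩ := two K q b e d hq hbq S2 S1 hS2 hS1 hp2 hp1 a c f hf hf0 (by
      intro lam hlam
      rw [Dm_prim K lam hfp, hlam f hm, zero_smul, zero_add])
    exact ⟨j, i, by rw [h1, add_comm], by rw [h2, add_comm]⟩

end Pool.Agent.Helper28.BX
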